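import Pool.Agent.helper62.Prog

/-!
# Functions computable in unary in polynomial time

`Cp f` says that the function `f`, of the input word and of finitely many natural number
variables, is computed by a stack program, with all numbers written in unary, in polynomial time.
-/

set_option autoImplicit false
set_option linter.unusedSimpArgs false
set_option linter.unusedVariables false

namespace Pool.Agent.H54.PT

open Pool.Agent.helper62 Prog Function

/-- State of the stacks: `0` is the input, `1` is scratch space, `2` is the output (reversed), `3`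
is the final output and `i + 4` is the counter `i`. -/
def st (x t o f : List Bool) (s : ℕ → ℕ) : ℕ → List Bool
  | 0 => x
  | 1 => t
  | 2 => o
  | 3 => f
  | i + 4 => List.replicate (s i) true

section states

variable (x t o f : List Bool) (s : ℕ → ℕ)

@[simp] lemma st_0 : st x t o f s 0 = x := rfl
@[simp] lemma st_1 : st x t o f s 1 = t := rfl
@[simp] lemma st_2 : st x t o f s 2 = o := rfl
@[simp] lemma st_3 : st x t o f s 3 = f := rfl
@[simp] lemma st_v (i : ℕ) : st x t o f s (i + 4) = List.replicate (s i) true := rfl

lemma upd_0 (l : List Bool) : update (st x t o f s) 0 l = st l t o f s := by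
  funext k
  match k with
  | 0 => simp
  | 1 => simp
  | 2 => simp
  | 3 => simp
  | i + 4 => simp

lemma upd_1 (l : List Bool) : update (st x t o f s) 1 l = st x l o f s := by
  funext k
  match k with
  | 0 => simp
  | 1 => simp
  | 2 => simp
  | 3 => simp
  | i + 4 => simp

lemma upd_2 (l : List Bool) : update (st x t o f s) 2 l = st x t l f s := by
  funext k
  match k with
  | 0 => simp
  | 1 => simp
  | 2 => simp
  | 3 => simp
  | i + 4 => simp

lemma upd_3 (l : List Bool) : update (st x t o f s) 3 l = st x t o l s := by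
  funext k
  match k with
  | 0 => simp
  | 1 => simp
  | 2 => simp
  | 3 => simp
  | i + 4 => simp

lemma upd_v (i n : ℕ) :
    update (st x t o f s) (i + 4) (List.replicate n true) = st x t o f (update s i n) := by
  funext k
  match k with
  | 0 => simp [update_apply]
  | 1 => simp [update_apply]
  | 2 => simp [update_apply]
  | 3 => simp [update_apply]
  | j + 4 =>
    simp only [update_apply, st_v, Nat.add_right_cancel_iff]
    split_ifs <;> rfl

end states

section basic

variable {x t o f : List Bool} {s : ℕ → ℕ}

lemma push_v (i : ℕ) :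
    Runs (.push (i + 4) true) (st x t o f s) (st x t o f (update s i (s i + 1))) 1 := by
  have := Runs.push (i + 4) true (st x t o f s)
  rw [st_v, ← List.replicate_succ, upd_v] at this
  exact this

lemma pop_v (i : ℕ) :
    Runs (.ifp (i + 4) .skip .skip .skip) (st x t o f s) (st x t o f (update s i (s i - 1))) 2 := by
  by_cases h : s i = 0
  · refine ⟨2, le_rfl, ?_⟩
    have e : update s i (s i - 1) = s := by rw [h, Nat.zero_sub, ← h, update_eq_self]
    rw [e]
    exact Exec.ifp_nil (n := 1) (by simp [h]) (.skip _)
  · obtain ⟨n, hn⟩ := Nat.exists_eq_succ_of_ne_zero h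
    have h1 : (st x t o f s) (i + 4) = true :: List.replicate n true := by
      rw [st_v, hn, List.replicate_succ]
    refine (Runs.ifp (pn := .skip) (pf := .skip) (pt := .skip) h1 (S' := st x t o f
      (update s i (s i - 1))) (t := 1) ?_).mono le_rfl
    rw [upd_v, hn]
    exact Runs.skip _

lemma pour_v {i j : ℕ} (h : i ≠ j) :
    Runs (pour (i + 4) (j + 4)) (st x t o f s)
      (st x t o f (update (update s i 0) j (s i + s j))) (2 * s i + 1) := by
  have := Runs.pour (k := i + 4) (k' := j + 4) (by omega) _ (st x t o f s) (st_v x t o f s i)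
  rw [List.length_replicate, List.reverse_replicate, st_v, List.replicate_append_replicate] at this
  have e : update (st x t o f s) (i + 4) [] = st x t o f (update s i 0) := upd_v x t o f s i 0
  rw [e, upd_v] at this
  exact this

lemma clear_v (i : ℕ) :
    Runs (clear (i + 4)) (st x t o f s) (st x t o f (update s i 0)) (2 * s i + 1) := by
  have := Runs.clear (k := i + 4) _ (st x t o f s) (st_v x t o f s i)
  rw [List.length_replicate] at this
  have e : update (st x t o f s) (i + 4) [] = st x t o f (update s i 0) := upd_v x t o f s i 0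
  rw [e] at this
  exact this

/-- Loop on a counter. -/
lemma loop_v {i : ℕ} {p : Prog ℕ} {c : ℕ} (n : ℕ) (s : ℕ → ℕ → ℕ) (o : ℕ → List Bool)
    (h1 : ∀ j ≤ n, s j i = n - j)
    (h2 : ∀ j < n, Runs p (st x t (o j) f (update (s j) i (n - (j + 1))))
      (st x t (o (j + 1)) f (s (j + 1))) c) :
    Runs (.loop (i + 4) .skip p) (st x t (o 0) f (s 0)) (st x t (o n) f (s n)) (n * (c + 1) + 1) := by
  refine Runs.loop_unary (k := i + 4) (pf := .skip) (pt := p) (t := c) n
    (fun j => st x t (o j) f (s j)) (fun j hj => ?_) (fun j hj => ?_)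
  · rw [st_v, h1 j hj]
  · rw [upd_v]
    exact h2 j hj

/-- Add counter `a` to counter `b`, with scratch counter `t`. -/
def cpy (a b t : ℕ) : Prog ℕ :=
  .seq (.loop (a + 4) .skip (.seq (.push (b + 4) true) (.push (t + 4) true)))
    (pour (t + 4) (a + 4))

lemma runs_cpy {a b c : ℕ} (hab : a ≠ b) (hac : a ≠ c) (hbc : b ≠ c) (h : s c = 0) :
    Runs (cpy a b c) (st x t o f s) (st x t o f (update s b (s b + s a))) (5 * s a + 2) := by
  have h1 := loop_v (x := x) (t := t) (f := f) (i := a) (c := 2)
    (p := .seq (.push (b + 4) true) (.push (c + 4) true)) (s a)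
    (fun j => update (update (update s a (s a - j)) b (s b + j)) c j) (fun _ => o)
    (fun j hj => by simp [update_apply, hab, hac])
    (fun j hj => by
      have g1 := push_v (x := x) (t := t) (o := o) (f := f)
        (s := update (update (update (update s a (s a - j)) b (s b + j)) c j) a
          (s a - (j + 1))) b
      have g2 := push_v (x := x) (t := t) (o := o) (f := f) (s := update (update (update
        (update (update s a (s a - j)) b (s b + j)) c j) a
          (s a - (j + 1))) b (update (update (update (update s a (s a - j)) b (s b + j)) c j) a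
          (s a - (j + 1)) b + 1)) c
      refine (g1.seq g2).mono' ?_ le_rfl
      congr 1
      funext k
      simp only [Function.update_apply]
      split_ifs <;> (try subst_vars) <;> first | rfl | omega)
  have h2 := pour_v (x := x) (t := t) (o := o) (f := f) (i := c) (j := a)
    (s := update (update (update s a (s a - s a)) b (s b + s a)) c (s a)) hac.symm
  have e0 : (update (update (update s a (s a - 0)) b (s b + 0)) c 0) = s := by
    funext k
    simp only [Function.update_apply]
    split_ifs <;> (try subst_vars) <;> first | rfl | omega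
  simp only [e0] at h1
  refine (h1.seq h2).mono' ?_ ?_
  · congr 1
    funext k
    simp only [Function.update_apply]
    split_ifs <;> (try subst_vars) <;> first | rfl | omega
  · simp only [update_self]
    omega

end basic

/-! ### Length of the stacks -/

lemma exec_length_le {I : Type} [DecidableEq I] {p : Prog I} {S S' : I → List Bool} {n : ℕ}
    (h : Exec p S S' n) (k : I) : (S' k).length ≤ (S k).length + n := by
  have hupd : ∀ (S : I → List Bool) (k' : I) (l : List Bool) (b : Bool), S k' = b :: l →
      ((update S k' l) k).length ≤ (S k).length := by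
    intro S k' l b h
    by_cases hk : k = k'
    · subst hk; rw [update_self, h]; simp
    · rw [update_of_ne hk]
  induction h with
  | skip S => omega
  | push k' b S =>
    by_cases hk : k = k'
    · subst hk; rw [update_self]; simp
    · rw [update_of_ne hk]; omega
  | seq _ _ ih1 ih2 => omega
  | loop_nil _ => omega
  | loop_false h _ _ ih1 ih2 => have := hupd _ _ _ _ h; omega
  | loop_true h _ _ ih1 ih2 => have := hupd _ _ _ _ h; omega
  | ifp_nil _ _ ih => omega
  | ifp_false h _ ih => have := hupd _ _ _ _ h; omega
  | ifp_true h _ ih => have := hupd _ _ _ _ h; omega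

lemma runs_length_le {I : Type} [DecidableEq I] {p : Prog I} {S S' : I → List Bool} {n : ℕ}
    (h : Runs p S S' n) (k : I) : (S' k).length ≤ (S k).length + n := by
  obtain ⟨m, hm, h⟩ := h
  have := exec_length_le h k
  omega

lemma pe_mono (p : Polynomial ℕ) {a b : ℕ} (h : a ≤ b) : p.eval a ≤ p.eval b := by
  rw [Polynomial.eval_eq_sum, Polynomial.eval_eq_sum, Polynomial.sum, Polynomial.sum]
  apply Finset.sum_le_sum
  intro i _
  exact Nat.mul_le_mul_left _ (Nat.pow_le_pow_left h i)

/-! ### Computable functions -/

/-- Functions of the input word and of variables. -/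
abbrev Fn := List Bool → (ℕ → ℕ) → ℕ

/-- The program `p` computes `f` with cost `c`; the variables are in the counters `ρ i`, the
counters from `d` on are empty, and the result is written in the counter `d`. -/
def Comp (f : Fn) (c : Polynomial ℕ) (ρ : ℕ → ℕ) (d : ℕ) (p : Prog ℕ) : Prop :=
  ∀ W x o s, x.length ≤ W → (∀ i, s (ρ i) ≤ W) → (∀ i, d ≤ i → s i = 0) →
    Runs p (st x [] o [] s) (st x [] o [] (update s d (f x fun i => s (ρ i)))) (c.eval W)

/-- `f` is computable. -/
def Cp (f : Fn) : Prop :=
  ∃ c : Polynomial ℕ, ∀ (ρ : ℕ → ℕ) (d : ℕ), (∀ i, ρ i < d) → ∃ p, Comp f c ρ d p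

lemma Comp.le {f : Fn} {c : Polynomial ℕ} {ρ : ℕ → ℕ} {d : ℕ} {p : Prog ℕ} (h : Comp f c ρ d p)
    {W : ℕ} {x : List Bool} {s : ℕ → ℕ} (h1 : x.length ≤ W) (h2 : ∀ i, s (ρ i) ≤ W)
    (h3 : ∀ i, d ≤ i → s i = 0) : f x (fun i => s (ρ i)) ≤ c.eval W := by
  have := runs_length_le (h W x [] s h1 h2 h3) (d + 4)
  simpa [h3 d le_rfl] using this

/-- extend a list of variables -/
def cons (a : ℕ) (v : ℕ → ℕ) : ℕ → ℕ
  | 0 => a
  | i + 1 => v i

@[simp] lemma cons_zero (a : ℕ) (v : ℕ → ℕ) : cons a v 0 = a := rfl
@[simp] lemma cons_succ (a : ℕ) (v : ℕ → ℕ) (i : ℕ) : cons a v (i + 1) = v i := rfl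

lemma Cp.congr {f g : Fn} (h : Cp f) (e : ∀ x v, f x v = g x v) : Cp g := by
  have : f = g := by funext x v; exact e x v
  exact this ▸ h

theorem Cp.rename {f : Fn} (h : Cp f) (σ : ℕ → ℕ) : Cp (fun x v => f x (fun i => v (σ i))) := by
  obtain ⟨c, h⟩ := h
  refine ⟨c, fun ρ d hd => ?_⟩
  obtain ⟨p, hp⟩ := h (fun i => ρ (σ i)) d (fun i => hd _)
  exact ⟨p, fun W x o s h1 h2 h3 => hp W x o s h1 (fun i => h2 _) h3⟩

theorem Cp.var (i : ℕ) : Cp (fun _ v => v i) := by
  refine ⟨5 * Polynomial.X + 2, fun ρ d hd => ⟨cpy (ρ i) d (d + 1), fun W x o s h1 h2 h3 => ?_⟩⟩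
  have hi := hd i
  have h := runs_cpy (x := x) (t := []) (o := o) (f := []) (s := s) (a := ρ i) (b := d)
    (c := d + 1) (by omega) (by omega) (by omega) (h3 _ (by omega))
  refine h.mono' ?_ ?_
  · rw [h3 d le_rfl, Nat.zero_add]
  · simp only [Polynomial.eval_add, Polynomial.eval_mul, Polynomial.eval_X, Polynomial.eval_ofNat]
    have := h2 i
    omega

theorem Cp.const (n : ℕ) : Cp (fun _ _ => n) := by
  induction n with
  | zero =>
    refine ⟨1, fun ρ d hd => ⟨.skip, fun W x o s h1 h2 h3 => ?_⟩⟩
    have e : update s d 0 = s := by rw [← h3 d le_rfl, update_eq_self]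
    rw [e, Polynomial.eval_one]
    exact Runs.skip _
  | succ n ih =>
    obtain ⟨c, h⟩ := ih
    refine ⟨c + 1, fun ρ d hd => ?_⟩
    obtain ⟨p, hp⟩ := h ρ d hd
    refine ⟨.seq p (.push (d + 4) true), fun W x o s h1 h2 h3 => ?_⟩
    have g1 := hp W x o s h1 h2 h3
    have g2 := push_v (x := x) (t := []) (o := o) (f := []) (s := update s d n) d
    refine (g1.seq g2).mono' ?_ ?_
    · simp
    · simp

/-- Two computations in a row. -/
lemma comp_two {f g : Fn} {c c' : Polynomial ℕ} {ρ : ℕ → ℕ} {d : ℕ} {p q : Prog ℕ}
    (hd : ∀ i, ρ i < d) (hp : Comp f c ρ d p) (hq : Comp g c' ρ (d + 1) q) {W : ℕ}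
    {x o : List Bool} {s : ℕ → ℕ} (h1 : x.length ≤ W) (h2 : ∀ i, s (ρ i) ≤ W)
    (h3 : ∀ i, d ≤ i → s i = 0) :
    Runs (.seq p q) (st x [] o [] s) (st x [] o [] (update (update s d (f x fun i => s (ρ i)))
      (d + 1) (g x fun i => s (ρ i)))) (c.eval W + c'.eval W) := by
  have g1 := hp W x o s h1 h2 h3
  have e : ∀ i, (update s d (f x fun i => s (ρ i))) (ρ i) = s (ρ i) := fun i => by
    rw [update_of_ne]; exact (hd i).ne
  have g2 := hq W x o (update s d (f x fun i => s (ρ i))) h1 (fun i => by rw [e]; exact h2 i)
    (fun i hi => by rw [update_of_ne (by omega)]; exact h3 i (by omega))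
  simp only [e] at g2
  exact g1.seq g2

theorem Cp.add {f g : Fn} (hf : Cp f) (hg : Cp g) : Cp (fun x v => f x v + g x v) := by
  obtain ⟨c, hf⟩ := hf
  obtain ⟨c', hg⟩ := hg
  refine ⟨c + c' + (2 * c' + 1), fun ρ d hd => ?_⟩
  obtain ⟨p, hp⟩ := hf ρ d hd
  obtain ⟨q, hq⟩ := hg ρ (d + 1) (fun i => (hd i).trans (Nat.lt_succ_self d))
  refine ⟨.seq (.seq p q) (pour (d + 1 + 4) (d + 4)), fun W x o s h1 h2 h3 => ?_⟩
  have g1 := comp_two (o := o) hd hp hq h1 h2 h3
  have g2 := pour_v (x := x) (t := []) (o := o) (f := []) (i := d + 1) (j := d)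
    (s := update (update s d (f x fun i => s (ρ i))) (d + 1) (g x fun i => s (ρ i))) (by omega)
  refine (g1.seq g2).mono' ?_ ?_
  · congr 1
    have := h3 (d + 1) (by omega)
    funext k
    simp only [Function.update_apply]
    split_ifs <;> (try subst_vars) <;> first | rfl | omega
  · have := hq.le (x := x) (s := s) h1 h2 (fun i hi => h3 i (by omega))
    simp only [update_self, Polynomial.eval_add, Polynomial.eval_mul, Polynomial.eval_X,
      Polynomial.eval_ofNat, Polynomial.eval_one]
    omega

theorem Cp.sub {f g : Fn} (hf : Cp f) (hg : Cp g) : Cp (fun x v => f x v - g x v) := by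
  obtain ⟨c, hf⟩ := hf
  obtain ⟨c', hg⟩ := hg
  refine ⟨c + c' + (c' * 3 + 1), fun ρ d hd => ?_⟩
  obtain ⟨p, hp⟩ := hf ρ d hd
  obtain ⟨q, hq⟩ := hg ρ (d + 1) (fun i => (hd i).trans (Nat.lt_succ_self d))
  refine ⟨.seq (.seq p q) (.loop (d + 1 + 4) .skip (.ifp (d + 4) .skip .skip .skip)),
    fun W x o s h1 h2 h3 => ?_⟩
  have g1 := comp_two (o := o) hd hp hq h1 h2 h3
  have hle := hq.le (x := x) (s := s) h1 h2 (fun i hi => h3 i (by omega))
  beta_reduce
  generalize f x (fun i => s (ρ i)) = a at *
  generalize g x (fun i => s (ρ i)) = b at *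
  have g2 := loop_v (x := x) (t := []) (f := []) (i := d + 1) (c := 2)
    (p := .ifp (d + 4) .skip .skip .skip) b
    (fun j => update (update s d (a - j)) (d + 1) (b - j)) (fun _ => o)
    (fun j hj => by simp)
    (fun j hj => by
      refine (pop_v (x := x) (t := []) (o := o) (f := []) d).mono' ?_ le_rfl
      congr 1
      funext k
      simp only [Function.update_apply]
      split_ifs <;> (try subst_vars) <;> first | rfl | omega)
  refine (g1.seq g2).mono' ?_ ?_
  · congr 1
    have := h3 (d + 1) (by omega)
    funext k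
    simp only [Function.update_apply]
    split_ifs <;> (try subst_vars) <;> first | rfl | omega
  · have : b * 3 ≤ c'.eval W * 3 := Nat.mul_le_mul_right _ hle
    simp only [Polynomial.eval_add, Polynomial.eval_mul, Polynomial.eval_X,
      Polynomial.eval_ofNat, Polynomial.eval_one]
    omega

theorem Cp.mul {f g : Fn} (hf : Cp f) (hg : Cp g) : Cp (fun x v => f x v * g x v) := by
  obtain ⟨c, hf⟩ := hf
  obtain ⟨c', hg⟩ := hg
  refine ⟨c + c' + (c' * (5 * c + 3) + 1 + ((2 * c + 1) + (2 * (c * c') + 1))), fun ρ d hd => ?_⟩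
  obtain ⟨p, hp⟩ := hf ρ d hd
  obtain ⟨q, hq⟩ := hg ρ (d + 1) (fun i => (hd i).trans (Nat.lt_succ_self d))
  refine ⟨.seq (.seq p q) (.seq (.loop (d + 1 + 4) .skip (cpy d (d + 2) (d + 3)))
    (.seq (clear (d + 4)) (pour (d + 2 + 4) (d + 4)))), fun W x o s h1 h2 h3 => ?_⟩
  have g1 := comp_two (o := o) hd hp hq h1 h2 h3
  have hle := hq.le (x := x) (s := s) h1 h2 (fun i hi => h3 i (by omega))
  have hle' := hp.le (x := x) (s := s) h1 h2 (fun i hi => h3 i (by omega))
  beta_reduce
  generalize f x (fun i => s (ρ i)) = a at *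
  generalize g x (fun i => s (ρ i)) = b at *
  have z1 := h3 (d + 1) (by omega)
  have z2 := h3 (d + 2) (by omega)
  have z3 := h3 (d + 3) (by omega)
  have g2 := loop_v (x := x) (t := []) (f := []) (i := d + 1) (c := 5 * a + 2)
    (p := cpy d (d + 2) (d + 3)) b
    (fun j => update (update (update s d a) (d + 1) (b - j)) (d + 2) (a * j)) (fun _ => o)
    (fun j hj => by simp)
    (fun j hj => by
      refine (runs_cpy (x := x) (t := []) (o := o) (f := []) (a := d) (b := d + 2) (c := d + 3)
        (by omega) (by omega) (by omega) ?_).mono' ?_ ?_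
      · simp [update_apply, z3]
      · congr 1
        have : a * (j + 1) = a * j + a := by ring
        funext k
        simp only [Function.update_apply]
        split_ifs <;> (try subst_vars) <;> first | rfl | omega
      · simp [update_apply])
  have g3 := clear_v (x := x) (t := []) (o := o) (f := []) (s := update (update (update s d a)
    (d + 1) (b - b)) (d + 2) (a * b)) d
  have g4 := pour_v (x := x) (t := []) (o := o) (f := []) (i := d + 2) (j := d)
    (s := update (update (update (update s d a) (d + 1) (b - b)) (d + 2) (a * b)) d 0) (by omega)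
  have e0 : update (update (update s d a) (d + 1) (b - 0)) (d + 2) (a * 0) =
      update (update s d a) (d + 1) b := by
    have : a * 0 = 0 := rfl
    funext k
    simp only [Function.update_apply]
    split_ifs <;> (try subst_vars) <;> first | rfl | omega
  simp only [e0] at g2
  refine (g1.seq (g2.seq (g3.seq g4))).mono' ?_ ?_
  · congr 1
    funext k
    simp only [Function.update_apply]
    split_ifs <;> (try subst_vars) <;> first | rfl | omega
  · have i1 : b * (5 * a + 3) ≤ c'.eval W * (5 * c.eval W + 3) :=
      Nat.mul_le_mul hle (by omega)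
    have i2 : a * b ≤ c.eval W * c'.eval W := Nat.mul_le_mul hle' hle
    have i3 : b * (5 * a + 2 + 1) = b * (5 * a + 3) := rfl
    simp only [Polynomial.eval_add, Polynomial.eval_mul, Polynomial.eval_X,
      Polynomial.eval_ofNat, Polynomial.eval_one]
    have e1 : update (update (update s d a) (d + 1) (b - b)) (d + 2) (a * b) d = a := by
      simp [update_apply]
    have e2 : update (update (update (update s d a) (d + 1) (b - b)) (d + 2) (a * b)) d 0
        (d + 2) = a * b := by
      simp [update_apply]
    rw [e1, e2]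
    omega

/-- bounded sums -/
theorem Cp.sum {b f : Fn} (hb : Cp b) (hf : Cp f) :
    Cp (fun x v => ∑ i ∈ Finset.range (b x v), f x (cons i v)) := by
  obtain ⟨c, hb⟩ := hb
  obtain ⟨c', hf⟩ := hf
  let K : Polynomial ℕ := c'.comp (Polynomial.X + c)
  refine ⟨c + (c * (K + (2 * K + 1) + 1 + 1) + 1 + ((2 * c + 1) + (2 * (c * K) + 1))),
    fun ρ d hd => ?_⟩
  obtain ⟨p, hp⟩ := hb ρ d hd
  obtain ⟨q, hq⟩ := hf (cons (d + 1) ρ) (d + 3) (fun i => by
    cases i with
    | zero => simp
    | succ i => simp only [cons_succ]; have := hd i; omega)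
  refine ⟨.seq p (.seq (.loop (d + 4) .skip (.seq (.seq q (pour (d + 3 + 4) (d + 2 + 4)))
    (.push (d + 1 + 4) true))) (.seq (clear (d + 1 + 4)) (pour (d + 2 + 4) (d + 4)))),
    fun W x o s h1 h2 h3 => ?_⟩
  have g1 := hp W x o s h1 h2 h3
  have hle := hp.le (x := x) (s := s) h1 h2 (fun i hi => h3 i (by omega))
  have z1 := h3 (d + 1) (by omega)
  have z2 := h3 (d + 2) (by omega)
  have z3 := h3 (d + 3) (by omega)
  beta_reduce
  generalize hn : b x (fun i => s (ρ i)) = n at *
  let S : ℕ → ℕ := fun j => ∑ i ∈ Finset.range j, f x (cons i fun i => s (ρ i))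
  have hS1 : ∀ j, S (j + 1) = S j + f x (cons j fun i => s (ρ i)) := fun j =>
    Finset.sum_range_succ _ _
  let T : ℕ → ℕ → ℕ := fun j => update (update (update s d (n - j)) (d + 1) j) (d + 2) (S j)
  have hT1 : ∀ j i, i < d → T j i = s i := fun j i hi => by
    simp [T, update_apply, show i ≠ d by omega, show i ≠ d + 1 by omega, show i ≠ d + 2 by omega]
  have hbody : ∀ j < n, Runs (.seq (.seq q (pour (d + 3 + 4) (d + 2 + 4)))
      (.push (d + 1 + 4) true)) (st x [] o [] (update (T j) d (n - (j + 1))))
      (st x [] o [] (T (j + 1))) (K.eval W + (2 * K.eval W + 1) + 1) ∧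
      f x (cons j fun i => s (ρ i)) ≤ K.eval W := by
    intro j hj
    have hv : (fun i => (update (T j) d (n - (j + 1))) (cons (d + 1) ρ i)) =
        cons j fun i => s (ρ i) := by
      funext i
      cases i with
      | zero => simp [T, update_apply]
      | succ i =>
        have := hd i
        simp only [cons_succ]
        rw [update_of_ne (by omega), hT1 _ _ (by omega)]
    have b1 : x.length ≤ W + c.eval W := by omega
    have b2 : ∀ i, (update (T j) d (n - (j + 1))) (cons (d + 1) ρ i) ≤ W + c.eval W := by
      intro i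
      have := congrFun hv i
      rw [this]
      cases i with
      | zero => simp only [cons_zero]; omega
      | succ i => simp only [cons_succ]; have := h2 i; omega
    have b3 : ∀ i, d + 3 ≤ i → (update (T j) d (n - (j + 1))) i = 0 := by
      intro i hi
      simp only [T, update_apply]
      rw [if_neg (by omega), if_neg (by omega), if_neg (by omega), if_neg (by omega)]
      exact h3 i (by omega)
    have k1 := hq (W + c.eval W) x o _ b1 b2 b3
    have k0 := hq.le b1 b2 b3
    rw [hv] at k1 k0
    have eK : c'.eval (W + c.eval W) = K.eval W := by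
      simp [K, Polynomial.eval_comp]
    rw [eK] at k1 k0
    refine ⟨?_, k0⟩
    have k2 := pour_v (x := x) (t := []) (o := o) (f := []) (i := d + 3) (j := d + 2)
      (s := update (update (T j) d (n - (j + 1))) (d + 3) (f x (cons j fun i => s (ρ i))))
      (by omega)
    have k3 := push_v (x := x) (t := []) (o := o) (f := []) (d + 1)
      (s := update (update (update (update (T j) d (n - (j + 1))) (d + 3)
        (f x (cons j fun i => s (ρ i)))) (d + 3) 0) (d + 2)
        (update (update (T j) d (n - (j + 1))) (d + 3) (f x (cons j fun i => s (ρ i))) (d + 3) +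
          update (update (T j) d (n - (j + 1))) (d + 3) (f x (cons j fun i => s (ρ i))) (d + 2)))
    refine ((k1.seq k2).seq k3).mono' ?_ ?_
    · congr 1
      have := hS1 j
      simp only [T]
      funext k
      simp only [update_apply]
      split_ifs <;> subst_vars <;> first | rfl | omega
    · simp only [update_self]
      omega
  have g2 := loop_v (x := x) (t := []) (f := []) (i := d) n T (fun _ => o)
    (fun j hj => by simp [T, update_apply]) (fun j hj => (hbody j hj).1)
  have g3 := clear_v (x := x) (t := []) (o := o) (f := []) (s := T n) (d + 1)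
  have g4 := pour_v (x := x) (t := []) (o := o) (f := []) (i := d + 2) (j := d)
    (s := update (T n) (d + 1) 0) (by omega)
  have hSn : S n ≤ n * K.eval W := by
    calc S n ≤ ∑ _i ∈ Finset.range n, K.eval W :=
          Finset.sum_le_sum fun i hi => (hbody i (Finset.mem_range.1 hi)).2
      _ = n * K.eval W := by simp
  have e0 : T 0 = update s d n := by
    have : S 0 = 0 := by simp [S]
    simp only [T]
    funext k
    simp only [Function.update_apply]
    split_ifs <;> (try subst_vars) <;> first | rfl | omega
  rw [e0] at g2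
  refine (g1.seq (g2.seq (g3.seq g4))).mono' ?_ ?_
  · congr 1
    have : (∑ i ∈ Finset.range n, f x (cons i fun i => s (ρ i))) = S n := rfl
    rw [this]
    simp only [T]
    funext k
    simp only [update_apply]
    split_ifs <;> subst_vars <;> first | rfl | omega
  · have i1 : n * (K.eval W + (2 * K.eval W + 1) + 1 + 1) ≤
        c.eval W * (K.eval W + (2 * K.eval W + 1) + 1 + 1) := Nat.mul_le_mul_right _ hle
    have i2 : n * K.eval W ≤ c.eval W * K.eval W := Nat.mul_le_mul_right _ hle
    have e1 : T n (d + 1) = n := by simp [T, update_apply]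
    have e2 : update (T n) (d + 1) 0 (d + 2) = S n := by simp [T, update_apply]
    rw [e1, e2]
    simp only [Polynomial.eval_add, Polynomial.eval_mul, Polynomial.eval_X,
      Polynomial.eval_ofNat, Polynomial.eval_one]
    omega

/-- substitution of a computed value -/
theorem Cp.letE {e f : Fn} (he : Cp e) (hf : Cp f) : Cp (fun x v => f x (cons (e x v) v)) := by
  obtain ⟨c, he⟩ := he
  obtain ⟨c', hf⟩ := hf
  let K : Polynomial ℕ := c'.comp (Polynomial.X + c)
  refine ⟨c + (K + ((2 * c + 1) + (2 * K + 1))), fun ρ d hd => ?_⟩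
  obtain ⟨p, hp⟩ := he ρ d hd
  obtain ⟨q, hq⟩ := hf (cons d ρ) (d + 1) (fun i => by
    cases i with
    | zero => simp
    | succ i => simp only [cons_succ]; have := hd i; omega)
  refine ⟨.seq p (.seq q (.seq (clear (d + 4)) (pour (d + 1 + 4) (d + 4)))),
    fun W x o s h1 h2 h3 => ?_⟩
  have g1 := hp W x o s h1 h2 h3
  have hle := hp.le (x := x) (s := s) h1 h2 (fun i hi => h3 i (by omega))
  have z1 := h3 (d + 1) (by omega)
  beta_reduce
  generalize hn : e x (fun i => s (ρ i)) = n at *
  have hv : (fun i => (update s d n) (cons d ρ i)) = cons n fun i => s (ρ i) := by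
    funext i
    cases i with
    | zero => simp
    | succ i =>
      have := hd i
      simp only [cons_succ]
      rw [update_of_ne (by omega)]
  have b1 : x.length ≤ W + c.eval W := by omega
  have b2 : ∀ i, (update s d n) (cons d ρ i) ≤ W + c.eval W := by
    intro i
    have := congrFun hv i
    rw [this]
    cases i with
    | zero => simp only [cons_zero]; omega
    | succ i => simp only [cons_succ]; have := h2 i; omega
  have b3 : ∀ i, d + 1 ≤ i → (update s d n) i = 0 := by
    intro i hi
    rw [update_of_ne (by omega)]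
    exact h3 i (by omega)
  have k1 := hq (W + c.eval W) x o _ b1 b2 b3
  have k0 := hq.le b1 b2 b3
  rw [hv] at k1 k0
  have eK : c'.eval (W + c.eval W) = K.eval W := by
    simp [K, Polynomial.eval_comp]
  rw [eK] at k1 k0
  generalize f x (cons n fun i => s (ρ i)) = m at *
  have g3 := clear_v (x := x) (t := []) (o := o) (f := [])
    (s := update (update s d n) (d + 1) m) d
  have g4 := pour_v (x := x) (t := []) (o := o) (f := []) (i := d + 1) (j := d)
    (s := update (update (update s d n) (d + 1) m) d 0) (by omega)
  refine (g1.seq (k1.seq (g3.seq g4))).mono' ?_ ?_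
  · congr 1
    funext k
    simp only [Function.update_apply]
    split_ifs <;> (try subst_vars) <;> first | rfl | omega
  · have e1 : update (update s d n) (d + 1) m d = n := by simp [update_apply]
    have e2 : update (update (update s d n) (d + 1) m) d 0 (d + 1) = m := by
      simp [update_apply]
    rw [e1, e2]
    simp only [Polynomial.eval_add, Polynomial.eval_mul, Polynomial.eval_X,
      Polynomial.eval_ofNat, Polynomial.eval_one]
    omega

end Pool.Agent.H54.PT
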