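import Pool.Agent.H54.PT.Cp
import Pool.Prelude.Def_F_458e953d

/-!
# Words written in polynomial time

`Dp w` says that the word `w`, which depends on the input word and on variables, can be written
by a program in polynomial time.
-/

set_option autoImplicit false
set_option linter.unusedSimpArgs false
set_option linter.unusedVariables false

namespace Pool.Agent.H54.PT

open Pool.Agent.helper62 Prog Function

/-! ### The input -/

lemma ifp_nil {I : Type} [DecidableEq I] {k : I} {pn pf pt : Prog I} {S S' : I → List Bool}
    {t : ℕ} (h : S k = []) (h1 : Runs pn S S' t) : Runs (.ifp k pn pf pt) S S' (1 + t) := by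
  obtain ⟨n, hn, h1⟩ := h1
  exact ⟨1 + n, by omega, .ifp_nil h h1⟩

lemma runs_lenLoop (d : ℕ) : ∀ (x t o : List Bool) (s : ℕ → ℕ),
    Runs (.loop 0 (.seq (.push 1 false) (.push (d + 4) true))
      (.seq (.push 1 true) (.push (d + 4) true))) (st x t o [] s)
      (st [] (x.reverse ++ t) o [] (update s d (s d + x.length))) (3 * x.length + 1) := by
  intro x
  induction x with
  | nil =>
    intro t o s
    refine (Runs.loop_nil (S := st [] t o [] s) (k := 0) rfl).mono' ?_ (by simp)
    simp
  | cons b x ih =>
    intro t o s
    have h1 := ih (b :: t) o (update s d (s d + 1))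
    have h2 : Runs (if b then (.seq (.push 1 true) (.push (d + 4) true)) else
        (.seq (.push 1 false) (.push (d + 4) true))) (update (st (b :: x) t o [] s) 0 x)
        (st x (b :: t) o [] (update s d (s d + 1))) 2 := by
      rw [upd_0]
      have hb : ∀ b : Bool, Runs (.seq (.push 1 b) (.push (d + 4) true)) (st x t o [] s)
          (st x (b :: t) o [] (update s d (s d + 1))) 2 := by
        intro b
        have g1 := Runs.push 1 b (st x t o [] s)
        rw [st_1, upd_1] at g1
        exact g1.seq (push_v d)
      cases b
      · exact hb false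
      · exact hb true
    refine (Runs.loop_cons (k := 0) (b := b) (l := x) rfl h2 h1).mono' ?_ ?_
    · simp only [update_self, update_idem, List.length_cons, List.reverse_cons, List.append_assoc,
        List.cons_append, List.nil_append]
      congr 2
      omega
    · simp only [List.length_cons]; omega

lemma runs_pour10 (x t o : List Bool) (s : ℕ → ℕ) :
    Runs (pour 1 0) (st x t o [] s) (st (t.reverse ++ x) [] o [] s) (2 * t.length + 1) := by
  have := Runs.pour (k := 1) (k' := 0) (by decide) t (st x t o [] s) rfl
  rw [upd_1, upd_0] at this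
  exact this

/-- the length of the input -/
theorem Cp.len : Cp (fun x _ => x.length) := by
  refine ⟨5 * Polynomial.X + 2, fun ρ d hd => ⟨.seq (.loop 0 (.seq (.push 1 false)
    (.push (d + 4) true)) (.seq (.push 1 true) (.push (d + 4) true))) (pour 1 0),
    fun W x o s h1 h2 h3 => ?_⟩⟩
  have g1 := runs_lenLoop d x [] o s
  have g2 := runs_pour10 [] (x.reverse ++ []) o (update s d (s d + x.length))
  refine (g1.seq g2).mono' ?_ ?_
  · simp [h3 d le_rfl]
  · simp only [List.length_append, List.length_reverse, List.length_nil, Polynomial.eval_add,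
      Polynomial.eval_mul, Polynomial.eval_X, Polynomial.eval_ofNat]
    omega

lemma take_succ_reverse (x : List Bool) (j : ℕ) (b : Bool) (h : x[j]? = some b) :
    (x.take (j + 1)).reverse = b :: (x.take j).reverse := by
  rw [List.take_add_one, h]
  simp

lemma runs_move1 (x : List Bool) (j : ℕ) (o : List Bool) (s : ℕ → ℕ) :
    Runs (.ifp 0 .skip (.push 1 false) (.push 1 true))
      (st (x.drop j) (x.take j).reverse o [] s)
      (st (x.drop (j + 1)) (x.take (j + 1)).reverse o [] s) 2 := by
  by_cases h : j < x.length
  · have h1 : (st (x.drop j) (x.take j).reverse o [] s) 0 = x[j] :: x.drop (j + 1) := by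
      rw [st_0, List.drop_eq_getElem_cons h]
    refine (Runs.ifp (t := 1) h1 ?_).mono le_rfl
    rw [upd_0, take_succ_reverse x j x[j] (List.getElem?_eq_getElem h)]
    have h2 := Runs.push 1 x[j] (st (x.drop (j + 1)) (x.take j).reverse o [] s)
    rw [upd_1, st_1] at h2
    cases hb : x[j] with
    | false => rw [hb] at h2; exact h2
    | true => rw [hb] at h2; exact h2
  · have e1 : x.drop j = [] := List.drop_eq_nil_of_le (by omega)
    have e2 : x.drop (j + 1) = [] := List.drop_eq_nil_of_le (by omega)
    have e3 : x.take j = x := List.take_of_length_le (by omega)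
    have e4 : x.take (j + 1) = x := List.take_of_length_le (by omega)
    rw [e1, e2, e3, e4]
    exact (ifp_nil (t := 1) rfl (Runs.skip _)).mono le_rfl

/-- the bits of the input -/
theorem Cp.bit {e : Fn} (he : Cp e) : Cp (fun x v => (x.getD (e x v) false).toNat) := by
  obtain ⟨c, he⟩ := he
  refine ⟨c + (c * 3 + 1 + (3 + (2 * Polynomial.X + 1))), fun ρ d hd => ?_⟩
  obtain ⟨p, hp⟩ := he ρ d hd
  refine ⟨.seq p (.seq (.loop (d + 4) .skip (.ifp 0 .skip (.push 1 false) (.push 1 true)))
    (.seq (.ifp 0 .skip (.push 0 false) (.seq (.push 0 true) (.push (d + 4) true)))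
      (pour 1 0))), fun W x o s h1 h2 h3 => ?_⟩
  have g1 := hp W x o s h1 h2 h3
  have hle := hp.le h1 h2 h3
  beta_reduce
  generalize e x (fun i => s (ρ i)) = n at *
  have z := h3 d le_rfl
  have g2 := Runs.loop_unary (k := d + 4) (pf := .skip)
    (pt := .ifp 0 .skip (.push 1 false) (.push 1 true)) (t := 2) n
    (fun j => st (x.drop j) (x.take j).reverse o [] (update s d (n - j)))
    (fun j hj => by simp) (fun j hj => by
      rw [upd_v, update_idem]
      exact runs_move1 x j o _)
  rw [List.drop_zero, List.take_zero, List.reverse_nil, Nat.sub_zero, Nat.sub_self] at g2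
  have es : update s d 0 = s := by rw [← z, update_eq_self]
  rw [es] at g2
  have g3 : Runs (.ifp 0 .skip (.push 0 false) (.seq (.push 0 true) (.push (d + 4) true)))
      (st (x.drop n) (x.take n).reverse o [] s)
      (st (x.drop n) (x.take n).reverse o [] (update s d (x.getD n false).toNat)) 3 := by
    by_cases h : n < x.length
    · have k1 : (st (x.drop n) (x.take n).reverse o [] s) 0 = x[n] :: x.drop (n + 1) := by
        rw [st_0, List.drop_eq_getElem_cons h]
      have k2 : x.getD n false = x[n] := by
        rw [List.getD_eq_getElem?_getD, List.getElem?_eq_getElem h]; rfl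
      rw [k2]
      refine (Runs.ifp (t := 2) k1 ?_).mono le_rfl
      rw [upd_0]
      have k3 := Runs.push 0 x[n] (st (x.drop (n + 1)) (x.take n).reverse o [] s)
      rw [upd_0, st_0] at k3
      have k4 : x[n] :: x.drop (n + 1) = x.drop n := (List.drop_eq_getElem_cons h).symm
      rw [k4] at k3
      cases hb : x[n] with
      | false =>
        rw [hb] at k3
        refine k3.mono' ?_ (by omega)
        simp only [Bool.toNat_false]
        rw [es]
      | true =>
        rw [hb] at k3
        refine (k3.seq (push_v d)).mono' ?_ (by omega)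
        rw [z]
        rfl
    · have e1 : x.drop n = [] := List.drop_eq_nil_of_le (by omega)
      have e2 : x.getD n false = false := by
        rw [List.getD_eq_getElem?_getD, List.getElem?_eq_none (by omega)]; rfl
      rw [e1, e2]
      simp only [Bool.toNat_false]
      rw [es]
      exact (ifp_nil (t := 1) rfl (Runs.skip _)).mono (by omega)
  have g4 := runs_pour10 (x.drop n) (x.take n).reverse o (update s d (x.getD n false).toNat)
  refine (g1.seq (g2.seq (g3.seq g4))).mono' ?_ ?_
  · rw [List.reverse_reverse, List.take_append_drop]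
  · have : n * (2 + 1) ≤ c.eval W * 3 := Nat.mul_le_mul_right _ hle
    have h5 : (x.take n).reverse.length ≤ W := by
      rw [List.length_reverse, List.length_take]; omega
    simp only [Polynomial.eval_add, Polynomial.eval_mul, Polynomial.eval_X,
      Polynomial.eval_ofNat, Polynomial.eval_one]
    omega

/-! ### Words -/

/-- Words depending on the input and on variables. -/
abbrev Wd := List Bool → (ℕ → ℕ) → List Bool

/-- The program `p` appends the word `w` to the output. -/
def CompW (w : Wd) (c : Polynomial ℕ) (ρ : ℕ → ℕ) (d : ℕ) (p : Prog ℕ) : Prop :=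
  ∀ W x o s, x.length ≤ W → (∀ i, s (ρ i) ≤ W) → (∀ i, d ≤ i → s i = 0) →
    Runs p (st x [] o [] s) (st x [] ((w x fun i => s (ρ i)).reverse ++ o) [] s) (c.eval W)

/-- `w` can be written in polynomial time. -/
def Dp (w : Wd) : Prop :=
  ∃ c : Polynomial ℕ, ∀ (ρ : ℕ → ℕ) (d : ℕ), (∀ i, ρ i < d) → ∃ p, CompW w c ρ d p

lemma Dp.congr {f g : Wd} (h : Dp f) (e : ∀ x v, f x v = g x v) : Dp g := by
  have : f = g := by funext x v; exact e x v
  exact this ▸ h

theorem Dp.rename {w : Wd} (h : Dp w) (σ : ℕ → ℕ) : Dp (fun x v => w x (fun i => v (σ i))) := by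
  obtain ⟨c, h⟩ := h
  refine ⟨c, fun ρ d hd => ?_⟩
  obtain ⟨p, hp⟩ := h (fun i => ρ (σ i)) d (fun i => hd _)
  exact ⟨p, fun W x o s h1 h2 h3 => hp W x o s h1 (fun i => h2 _) h3⟩

theorem Dp.const (l : List Bool) : Dp (fun _ _ => l) := by
  refine ⟨((l.length + 1 : ℕ) : Polynomial ℕ), fun ρ d hd => ⟨Prog.pushes 2 l,
    fun W x o s h1 h2 h3 => ?_⟩⟩
  have := Runs.pushes (k := 2) l (st x [] o [] s)
  rw [st_2, upd_2] at this
  rw [Polynomial.eval_natCast]
  exact this

theorem Dp.append {w w' : Wd} (h : Dp w) (h' : Dp w') : Dp (fun x v => w x v ++ w' x v) := by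
  obtain ⟨c, h⟩ := h
  obtain ⟨c', h'⟩ := h'
  refine ⟨c + c', fun ρ d hd => ?_⟩
  obtain ⟨p, hp⟩ := h ρ d hd
  obtain ⟨q, hq⟩ := h' ρ d hd
  refine ⟨.seq p q, fun W x o s h1 h2 h3 => ?_⟩
  refine ((hp W x o s h1 h2 h3).seq (hq W x _ s h1 h2 h3)).mono' ?_ ?_
  · simp
  · simp

theorem Dp.letE {e : Fn} {w : Wd} (he : Cp e) (hf : Dp w) :
    Dp (fun x v => w x (cons (e x v) v)) := by
  obtain ⟨c, he⟩ := he
  obtain ⟨c', hf⟩ := hf
  let K : Polynomial ℕ := c'.comp (Polynomial.X + c)
  refine ⟨c + (K + (2 * c + 1)), fun ρ d hd => ?_⟩
  obtain ⟨p, hp⟩ := he ρ d hd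
  obtain ⟨q, hq⟩ := hf (cons d ρ) (d + 1) (fun i => by
    cases i with
    | zero => simp
    | succ i => simp only [cons_succ]; have := hd i; omega)
  refine ⟨.seq p (.seq q (clear (d + 4))), fun W x o s h1 h2 h3 => ?_⟩
  have g1 := hp W x o s h1 h2 h3
  have hle := hp.le (x := x) (s := s) h1 h2 (fun i hi => h3 i (by omega))
  beta_reduce
  generalize hn : e x (fun i => s (ρ i)) = n at *
  have hv : (fun i => (update s d n) (cons d ρ i)) = cons n fun i => s (ρ i) := by
    funext i
    cases i with
    | zero => simp
    | succ i =>
      have := hd i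
      simp only [cons_succ]
      rw [update_of_ne (by omega)]
  have b1 : x.length ≤ W + c.eval W := by omega
  have b2 : ∀ i, (update s d n) (cons d ρ i) ≤ W + c.eval W := by
    intro i
    have := congrFun hv i
    rw [this]
    cases i with
    | zero => simp only [cons_zero]; omega
    | succ i => simp only [cons_succ]; have := h2 i; omega
  have b3 : ∀ i, d + 1 ≤ i → (update s d n) i = 0 := by
    intro i hi
    rw [update_of_ne (by omega)]
    exact h3 i (by omega)
  have k1 := hq (W + c.eval W) x o _ b1 b2 b3
  rw [hv] at k1
  have eK : c'.eval (W + c.eval W) = K.eval W := by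
    simp [K, Polynomial.eval_comp]
  rw [eK] at k1
  have g3 := clear_v (x := x) (t := []) (o := (w x (cons n fun i => s (ρ i))).reverse ++ o)
    (f := []) (s := update s d n) d
  refine (g1.seq (k1.seq g3)).mono' ?_ ?_
  · congr 1
    have := h3 d le_rfl
    funext k
    simp only [Function.update_apply]
    split_ifs <;> (try subst_vars) <;> first | rfl | omega
  · rw [update_self]
    simp only [Polynomial.eval_add, Polynomial.eval_mul, Polynomial.eval_X,
      Polynomial.eval_ofNat, Polynomial.eval_one]
    omega

/-- for loops -/
theorem Dp.forE {b : Fn} {w : Wd} (hb : Cp b) (hf : Dp w) :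
    Dp (fun x v => (List.range (b x v)).flatMap (fun i => w x (cons i v))) := by
  obtain ⟨c, hb⟩ := hb
  obtain ⟨c', hf⟩ := hf
  let K : Polynomial ℕ := c'.comp (Polynomial.X + c)
  refine ⟨c + (c * (K + 1 + 1) + 1 + (2 * c + 1)), fun ρ d hd => ?_⟩
  obtain ⟨p, hp⟩ := hb ρ d hd
  obtain ⟨q, hq⟩ := hf (cons (d + 1) ρ) (d + 2) (fun i => by
    cases i with
    | zero => simp
    | succ i => simp only [cons_succ]; have := hd i; omega)
  refine ⟨.seq p (.seq (.loop (d + 4) .skip (.seq q (.push (d + 1 + 4) true)))
    (clear (d + 1 + 4))), fun W x o s h1 h2 h3 => ?_⟩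
  have g1 := hp W x o s h1 h2 h3
  have hle := hp.le (x := x) (s := s) h1 h2 (fun i hi => h3 i (by omega))
  have z0 := h3 d (by omega)
  have z1 := h3 (d + 1) (by omega)
  beta_reduce
  generalize hn : b x (fun i => s (ρ i)) = n at *
  let O : ℕ → List Bool := fun j =>
    ((List.range j).flatMap (fun i => w x (cons i fun i => s (ρ i)))).reverse ++ o
  have hO : ∀ j, O (j + 1) = (w x (cons j fun i => s (ρ i))).reverse ++ O j := by
    intro j
    simp only [O, List.range_succ, List.flatMap_append, List.reverse_append, List.append_assoc,
      List.flatMap_cons, List.flatMap_nil, List.append_nil]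
  let T : ℕ → ℕ → ℕ := fun j => update (update s d (n - j)) (d + 1) j
  have hT1 : ∀ j i, i < d → T j i = s i := fun j i hi => by
    simp [T, update_apply, show i ≠ d by omega, show i ≠ d + 1 by omega]
  have hbody : ∀ j < n, Runs (.seq q (.push (d + 1 + 4) true))
      (st x [] (O j) [] (update (T j) d (n - (j + 1))))
      (st x [] (O (j + 1)) [] (T (j + 1))) (K.eval W + 1) := by
    intro j hj
    have hv : (fun i => (update (T j) d (n - (j + 1))) (cons (d + 1) ρ i)) =
        cons j fun i => s (ρ i) := by
      funext i
      cases i with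
      | zero => simp [T, update_apply]
      | succ i =>
        have := hd i
        simp only [cons_succ]
        rw [update_of_ne (by omega), hT1 _ _ (by omega)]
    have b1 : x.length ≤ W + c.eval W := by omega
    have b2 : ∀ i, (update (T j) d (n - (j + 1))) (cons (d + 1) ρ i) ≤ W + c.eval W := by
      intro i
      have := congrFun hv i
      rw [this]
      cases i with
      | zero => simp only [cons_zero]; omega
      | succ i => simp only [cons_succ]; have := h2 i; omega
    have b3 : ∀ i, d + 2 ≤ i → (update (T j) d (n - (j + 1))) i = 0 := by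
      intro i hi
      simp only [T, update_apply]
      rw [if_neg (by omega), if_neg (by omega), if_neg (by omega)]
      exact h3 i (by omega)
    have k1 := hq (W + c.eval W) x (O j) _ b1 b2 b3
    rw [hv] at k1
    have eK : c'.eval (W + c.eval W) = K.eval W := by
      simp [K, Polynomial.eval_comp]
    rw [eK] at k1
    have k3 := push_v (x := x) (t := []) (o := (w x (cons j fun i => s (ρ i))).reverse ++ O j)
      (f := []) (d + 1) (s := update (T j) d (n - (j + 1)))
    refine (k1.seq k3).mono' ?_ le_rfl
    rw [hO]
    congr 1
    simp only [T]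
    funext k
    simp only [update_apply]
    split_ifs <;> subst_vars <;> first | rfl | omega
  have g2 := loop_v (x := x) (t := []) (f := []) (i := d) n T O
    (fun j hj => by simp [T, update_apply]) (fun j hj => hbody j hj)
  have g3 := clear_v (x := x) (t := []) (o := O n) (f := []) (s := T n) (d + 1)
  have e0 : T 0 = update s d n := by
    simp only [T]
    funext k
    simp only [Function.update_apply]
    split_ifs <;> (try subst_vars) <;> first | rfl | omega
  have eO : O 0 = o := by simp [O]
  rw [e0, eO] at g2
  refine (g1.seq (g2.seq g3)).mono' ?_ ?_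
  · change st x [] (O n) [] _ = st x [] (O n) [] _
    congr 1
    simp only [T]
    funext k
    simp only [update_apply]
    split_ifs <;> subst_vars <;> first | rfl | omega
  · have i1 : n * (K.eval W + 1 + 1) ≤ c.eval W * (K.eval W + 1 + 1) :=
      Nat.mul_le_mul_right _ hle
    have e1 : T n (d + 1) = n := by simp [T, update_apply]
    rw [e1]
    simp only [Polynomial.eval_add, Polynomial.eval_mul, Polynomial.eval_X,
      Polynomial.eval_ofNat, Polynomial.eval_one]
    omega

/-- conditionals -/
theorem Dp.ite {e : Fn} {w w' : Wd} (he : Cp e) (h : Dp w) (h' : Dp w') :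
    Dp (fun x v => if e x v = 0 then w x v else w' x v) := by
  obtain ⟨c, he⟩ := he
  obtain ⟨c1, h⟩ := h
  obtain ⟨c2, h'⟩ := h'
  refine ⟨c + (1 + (c1 + ((2 * c + 1) + c2))), fun ρ d hd => ?_⟩
  obtain ⟨p, hp⟩ := he ρ d hd
  obtain ⟨q, hq⟩ := h ρ d hd
  obtain ⟨r, hr⟩ := h' ρ d hd
  refine ⟨.seq p (.ifp (d + 4) q .skip (.seq (clear (d + 4)) r)), fun W x o s h1 h2 h3 => ?_⟩
  have g1 := hp W x o s h1 h2 h3
  have hle := hp.le h1 h2 h3
  have z := h3 d le_rfl
  have es : update s d 0 = s := by rw [← z, update_eq_self]
  beta_reduce
  generalize hn : e x (fun i => s (ρ i)) = n at *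
  have g2 : Runs (.ifp (d + 4) q .skip (.seq (clear (d + 4)) r))
      (st x [] o [] (update s d n))
      (st x [] ((if n = 0 then w x (fun i => s (ρ i)) else w' x (fun i => s (ρ i))).reverse ++ o)
        [] s) (1 + (c1.eval W + ((2 * n + 1) + c2.eval W))) := by
    cases n with
    | zero =>
      rw [es, if_pos rfl]
      exact (ifp_nil (by simp [z]) (hq W x o s h1 h2 h3)).mono (by omega)
    | succ n =>
      rw [if_neg (by omega)]
      have k1 : (st x [] o [] (update s d (n + 1))) (d + 4) = true :: List.replicate n true := by
        rw [st_v, update_self, List.replicate_succ]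
      have k2 := clear_v (x := x) (t := []) (o := o) (f := []) (s := update s d n) d
      rw [update_self, update_idem, es] at k2
      refine (Runs.ifp (pn := q) (pf := .skip) (pt := .seq (clear (d + 4)) r) k1
        (t := 2 * n + 1 + c2.eval W) ?_).mono (by omega)
      rw [upd_v, update_idem]
      exact k2.seq (hr W x o s h1 h2 h3)
  refine (g1.seq g2).mono ?_
  simp only [Polynomial.eval_add, Polynomial.eval_mul, Polynomial.eval_X,
      Polynomial.eval_ofNat, Polynomial.eval_one]
  omega

/-! ### Binary numbers -/

open Computability in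
lemma encodeNat_pos (p : PosNum) : encodeNat (p : ℕ) = encodePosNum p := by
  rw [encodeNat, PosNum.of_to_nat]
  rfl

lemma exists_posNum (n : ℕ) (hn : n ≠ 0) : ∃ p : PosNum, (p : ℕ) = n := by
  have h := Num.to_of_nat n
  cases hm : (n : Num) with
  | zero =>
    rw [hm] at h
    exact absurd h.symm hn
  | pos p =>
    rw [hm] at h
    exact ⟨p, by simpa using h⟩

open Computability in
lemma encodeNat_succ (n : ℕ) (hn : n ≠ 0) :
    encodeNat n = decide (n % 2 = 1) :: encodeNat (n / 2) := by
  obtain ⟨p, rfl⟩ := exists_posNum n hn
  rw [encodeNat_pos]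
  cases p with
  | one => rfl
  | bit0 q =>
    have e : ((PosNum.bit0 q : PosNum) : ℕ) = 2 * (q : ℕ) := by
      rw [PosNum.cast_bit0]; omega
    have e1 : ((PosNum.bit0 q : PosNum) : ℕ) / 2 = (q : ℕ) := by omega
    have e2 : ((PosNum.bit0 q : PosNum) : ℕ) % 2 = 0 := by omega
    rw [e1, e2, encodeNat_pos]
    rfl
  | bit1 q =>
    have e : ((PosNum.bit1 q : PosNum) : ℕ) = 2 * (q : ℕ) + 1 := by
      rw [PosNum.cast_bit1]; omega
    have e1 : ((PosNum.bit1 q : PosNum) : ℕ) / 2 = (q : ℕ) := by omega
    have e2 : ((PosNum.bit1 q : PosNum) : ℕ) % 2 = 1 := by omega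
    rw [e1, e2, encodeNat_pos]
    rfl

/-- halving the counter `d` (minus one) -/
lemma runs_half (d : ℕ) (x o : List Bool) : ∀ (m : ℕ) (s : ℕ → ℕ), s d = m →
    Runs (.loop (d + 4) .skip (.ifp (d + 4) (.push (d + 2 + 4) true) .skip
        (.push (d + 1 + 4) true))) (st x [] o [] s)
      (st x [] o [] (update (update (update s d 0) (d + 1) (s (d + 1) + m / 2)) (d + 2)
        (s (d + 2) + m % 2))) (3 * m + 1) := by
  intro m
  induction m using Nat.strong_induction_on with
  | _ m ih =>
    intro s hs
    match m, ih, hs with
    | 0, _, hs =>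
      refine (Runs.loop_nil (by simp [hs])).mono' ?_ le_rfl
      congr 1
      funext k
      simp only [Function.update_apply]
      split_ifs <;> (try subst_vars) <;> first | rfl | omega
    | 1, _, hs =>
      have k1 : (st x [] o [] s) (d + 4) = true :: [] := by simp [hs]
      have k2 : Runs (.ifp (d + 4) (.push (d + 2 + 4) true) .skip (.push (d + 1 + 4) true))
          (update (st x [] o [] s) (d + 4) [])
          (st x [] o [] (update (update s d 0) (d + 2) (s (d + 2) + 1))) 2 := by
        have e : update (st x [] o [] s) (d + 4) [] = st x [] o [] (update s d 0) :=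
          upd_v x [] o [] s d 0
        rw [e]
        refine (ifp_nil (t := 1) (by simp) ((push_v (d + 2)).mono' ?_ le_rfl)).mono (by omega)
        congr 1
        funext k
        simp only [Function.update_apply]
        split_ifs <;> (try subst_vars) <;> first | rfl | omega
      have k3 : Runs (.loop (d + 4) .skip (.ifp (d + 4) (.push (d + 2 + 4) true) .skip
        (.push (d + 1 + 4) true)))
          (st x [] o [] (update (update s d 0) (d + 2) (s (d + 2) + 1)))
          (st x [] o [] (update (update s d 0) (d + 2) (s (d + 2) + 1))) 1 :=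
        Runs.loop_nil (by simp [update_apply])
      refine (Runs.loop_cons k1 k2 k3).mono' ?_ (by omega)
      congr 1
      funext k
      simp only [Function.update_apply]
      split_ifs <;> (try subst_vars) <;> first | rfl | omega
    | m + 2, ih, hs =>
      have k1 : (st x [] o [] s) (d + 4) = true :: List.replicate (m + 1) true := by
        rw [st_v, hs, List.replicate_succ]
      have k2 : Runs (.ifp (d + 4) (.push (d + 2 + 4) true) .skip (.push (d + 1 + 4) true))
          (update (st x [] o [] s) (d + 4) (List.replicate (m + 1) true))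
          (st x [] o [] (update (update s d m) (d + 1) (s (d + 1) + 1))) 2 := by
        rw [upd_v]
        have k4 : (st x [] o [] (update s d (m + 1))) (d + 4) = true :: List.replicate m true := by
          rw [st_v, update_self, List.replicate_succ]
        refine (Runs.ifp (t := 1) k4 ?_).mono le_rfl
        rw [upd_v]
        refine (push_v (d + 1)).mono' ?_ le_rfl
        congr 1
        funext k
        simp only [Function.update_apply]
        split_ifs <;> (try subst_vars) <;> first | rfl | omega
      have k3 := ih m (by omega) (update (update s d m) (d + 1) (s (d + 1) + 1))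
        (by simp [update_apply])
      refine (Runs.loop_cons k1 k2 k3).mono' ?_ (by omega)
      congr 1
      have e1 : (m + 2) / 2 = m / 2 + 1 := by omega
      have e2 : (m + 2) % 2 = m % 2 := by omega
      rw [e1, e2]
      funext k
      simp only [Function.update_apply]
      split_ifs <;> (try subst_vars) <;> first | rfl | omega

/-- write the counter `d` in binary, each bit being coded by `g` -/
def binProg (g : Bool → List Bool) (d : ℕ) : Prog ℕ :=
  .loop (d + 4) .skip (.seq (.loop (d + 4) .skip (.ifp (d + 4) (.push (d + 2 + 4) true) .skip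
    (.push (d + 1 + 4) true))) (.seq (.ifp (d + 2 + 4) (Prog.pushes 2 (g true)) .skip
      (.seq (Prog.pushes 2 (g false)) (.push (d + 1 + 4) true))) (pour (d + 1 + 4) (d + 4))))

lemma runs_bin (g : Bool → List Bool) (d : ℕ) (x : List Bool) : ∀ (n : ℕ) (s : ℕ → ℕ)
    (o : List Bool), s d = n → s (d + 1) = 0 → s (d + 2) = 0 →
    Runs (binProg g d) (st x [] o [] s)
      (st x [] (((Computability.encodeNat n).flatMap g).reverse ++ o) [] (update s d 0))
      (n * (4 * n + (g true).length + (g false).length + 8) + 1) := by
  intro n
  induction n using Nat.strong_induction_on with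
  | _ n ih =>
    intro s o hs h1 h2
    by_cases hn : n = 0
    · subst hn
      refine (Runs.loop_nil (by simp [hs])).mono' ?_ (by omega)
      have : update s d 0 = s := by rw [← hs, update_eq_self]
      rw [this]
      rfl
    obtain ⟨m, rfl⟩ := Nat.exists_eq_succ_of_ne_zero hn
    rw [Nat.succ_eq_add_one] at *
    have k1 : (st x [] o [] s) (d + 4) = true :: List.replicate m true := by
      rw [st_v, hs, List.replicate_succ]
    have k2 := runs_half d x o m (update s d m) (by simp)
    set s1 := update (update (update (update s d m) d 0) (d + 1)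
      ((update s d m) (d + 1) + m / 2)) (d + 2) ((update s d m) (d + 2) + m % 2) with hs1
    have v1 : s1 (d + 1) = m / 2 := by simp [hs1, update_apply, h1]
    have v2 : s1 (d + 2) = m % 2 := by simp [hs1, update_apply, h2]
    have v0 : s1 d = 0 := by simp [hs1, update_apply]
    have k3 : Runs (.ifp (d + 2 + 4) (Prog.pushes 2 (g true)) .skip
        (.seq (Prog.pushes 2 (g false)) (.push (d + 1 + 4) true))) (st x [] o [] s1)
        (st x [] ((g (decide ((m + 1) % 2 = 1))).reverse ++ o) []
          (update (update s d 0) (d + 1) ((m + 1) / 2)))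
        ((g true).length + (g false).length + 3) := by
      rcases Nat.mod_two_eq_zero_or_one m with hm | hm
      · have e1 : (m + 1) % 2 = 1 := by omega
        have e2 : (m + 1) / 2 = m / 2 := by omega
        rw [e1, e2]
        have k4 := Runs.pushes (k := 2) (g true) (st x [] o [] s1)
        rw [st_2, upd_2] at k4
        refine (ifp_nil (by rw [st_v, v2, hm]; rfl) k4).mono' ?_ (by omega)
        congr 1
        rw [hs1]
        funext k
        simp only [Function.update_apply]
        split_ifs <;> (try subst_vars) <;> first | rfl | omega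
      · have e1 : (m + 1) % 2 = 0 := by omega
        have e2 : (m + 1) / 2 = m / 2 + 1 := by omega
        rw [e1, e2]
        have k5 : (st x [] o [] s1) (d + 2 + 4) = true :: List.replicate 0 true := by
          rw [st_v, v2, hm]; rfl
        have k4 := Runs.pushes (k := 2) (g false) (st x [] o [] (update s1 (d + 2) 0))
        rw [st_2, upd_2] at k4
        have k6 := push_v (x := x) (t := []) (o := (g false).reverse ++ o) (f := [])
          (s := update s1 (d + 2) 0) (d + 1)
        refine (Runs.ifp (t := (g false).length + 2) k5 ?_).mono (by omega)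
        rw [upd_v]
        refine (k4.seq k6).mono' ?_ (by omega)
        have hd : decide ((0 : ℕ) = 1) = false := rfl
        rw [hd]
        congr 1
        rw [hs1]
        funext k
        simp only [Function.update_apply]
        split_ifs <;> (try subst_vars) <;> first | rfl | omega
    have k4 := pour_v (x := x) (t := []) (o := (g (decide ((m + 1) % 2 = 1))).reverse ++ o)
      (f := []) (i := d + 1) (j := d) (s := update (update s d 0) (d + 1) ((m + 1) / 2)) (by omega)
    have e4 : update (update (update (update s d 0) (d + 1) ((m + 1) / 2)) (d + 1) 0) d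
        (update (update s d 0) (d + 1) ((m + 1) / 2) (d + 1) +
          update (update s d 0) (d + 1) ((m + 1) / 2) d) = update s d ((m + 1) / 2) := by
      funext k
      simp only [Function.update_apply]
      split_ifs <;> (try subst_vars) <;> first | rfl | omega
    rw [e4] at k4
    have e5 : update (update s d 0) (d + 1) ((m + 1) / 2) (d + 1) = (m + 1) / 2 := by simp
    rw [e5] at k4
    have k5 := ih ((m + 1) / 2) (by omega) (update s d ((m + 1) / 2))
      ((g (decide ((m + 1) % 2 = 1))).reverse ++ o) (by simp) (by simp [h1]) (by simp [h2])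
    have k6 := Runs.loop_cons (pf := .skip) k1 (by
      rw [upd_v]
      exact (k2.seq (k3.seq k4))) k5
    refine k6.mono' ?_ ?_
    · rw [encodeNat_succ (m + 1) (by omega)]
      congr 1
      · simp
      · funext k
        simp only [Function.update_apply]
        split_ifs <;> (try subst_vars) <;> first | rfl | omega
    · have i1 : (m + 1) / 2 * (4 * ((m + 1) / 2) + (g true).length + (g false).length + 8) ≤
          m * (4 * (m + 1) + (g true).length + (g false).length + 8) ∨ m = 0 := by
        rcases Nat.eq_zero_or_pos m with h | h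
        · exact Or.inr h
        · left
          exact Nat.mul_le_mul (by omega) (by omega)
      rcases i1 with i1 | i1
      · have e : (m + 1) * (4 * (m + 1) + (g true).length + (g false).length + 8) =
          m * (4 * (m + 1) + (g true).length + (g false).length + 8) +
            (4 * (m + 1) + (g true).length + (g false).length + 8) := by ring
        omega
      · subst i1
        simp only [Nat.zero_add, Nat.reduceDiv, Nat.zero_mul, Nat.one_mul]
        omega

/-- numbers in binary -/
theorem Dp.bin {e : Fn} (he : Cp e) (g : Bool → List Bool) :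
    Dp (fun x v => (Computability.encodeNat (e x v)).flatMap g) := by
  obtain ⟨c, he⟩ := he
  refine ⟨c + (c * (4 * c + (((g true).length + (g false).length + 8 : ℕ) : Polynomial ℕ)) + 1),
    fun ρ d hd => ?_⟩
  obtain ⟨p, hp⟩ := he ρ d hd
  refine ⟨.seq p (binProg g d), fun W x o s h1 h2 h3 => ?_⟩
  have g1 := hp W x o s h1 h2 h3
  have hle := hp.le h1 h2 h3
  have z := h3 d le_rfl
  beta_reduce
  generalize hn : e x (fun i => s (ρ i)) = n at *
  have g2 := runs_bin g d x n (update s d n) o (by simp)
    (by simpa using h3 (d + 1) (by omega)) (by simpa using h3 (d + 2) (by omega))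
  refine (g1.seq g2).mono' ?_ ?_
  · congr 1
    funext k
    simp only [Function.update_apply]
    split_ifs <;> (try subst_vars) <;> first | rfl | omega
  · have i1 : n * (4 * n + (g true).length + (g false).length + 8) ≤
      c.eval W * (4 * c.eval W + ((g true).length + (g false).length + 8)) :=
      Nat.mul_le_mul hle (by omega)
    simp only [Polynomial.eval_add, Polynomial.eval_mul, Polynomial.eval_X,
      Polynomial.eval_ofNat, Polynomial.eval_one, Polynomial.eval_natCast]
    push_cast
    omega

end Pool.Agent.H54.PT
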