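import Pool.Agent.H54.PT.Ops

/-!
# Typed outputs

`De F` says that the object `F x v`, of a type with an encoding by bit strings, can be written in
polynomial time. Objects are built from numbers by pairing, by lists, loops and conditionals.
-/

set_option autoImplicit false
set_option linter.unusedSimpArgs false
set_option linter.unusedVariables false

namespace Pool.Agent.H54.PT

open Function N68a2faeb N793a5b8e

variable {α β : Type} [N487b59b3 α] [N487b59b3 β]

/-- `F` can be written in polynomial time, for every coding of the bits. -/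
def De (F : List Bool → (ℕ → ℕ) → α) : Prop :=
  ∀ g : Bool → List Bool, Dp (fun x v => (N487b59b3.bitEncode (F x v)).flatMap g)

lemma De.congr {F G : List Bool → (ℕ → ℕ) → α} (h : De F) (e : ∀ x v, F x v = G x v) : De G := by
  have : F = G := by funext x v; exact e x v
  exact this ▸ h

theorem De.rename {F : List Bool → (ℕ → ℕ) → α} (h : De F) (σ : ℕ → ℕ) :
    De (fun x v => F x (fun i => v (σ i))) :=
  fun g => (h g).rename σ

theorem De.letE {e : Fn} {F : List Bool → (ℕ → ℕ) → α} (he : Cp e) (h : De F) :
    De (fun x v => F x (cons (e x v) v)) :=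
  fun g => Dp.letE he (h g)

theorem De.nat {f : Fn} (hf : Cp f) : De f := fun g => Dp.bin hf g

theorem De.pair {F : List Bool → (ℕ → ℕ) → α} {G : List Bool → (ℕ → ℕ) → β} (hF : De F)
    (hG : De G) : De (fun x v => (F x v, G x v)) := by
  intro g
  refine (((hF (fun b => g true ++ g b)).append (Dp.const (g false))).append (hG g)).congr
    fun x v => ?_
  change _ = (N487b59b3.delimit (N487b59b3.bitEncode (F x v)) ++
    N487b59b3.bitEncode (G x v)).flatMap g
  rw [delimit_eq, dl, List.flatMap_append, List.flatMap_append, List.flatMap_assoc]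
  simp

theorem De.ite {P : Pr} {F G : List Bool → (ℕ → ℕ) → α} [∀ x v, Decidable (P x v)] (hP : Cq P)
    (hF : De F) (hG : De G) : De (fun x v => if P x v then F x v else G x v) := by
  intro g
  refine (Dp.iteP hP (hF g) (hG g)).congr fun x v => ?_
  beta_reduce
  split_ifs <;> rfl

lemma bitEncode_list (l : List α) :
    N487b59b3.bitEncode l = l.flatMap (fun a => N487b59b3.delimit (N487b59b3.bitEncode a)) := by
  change ((l.map N487b59b3.bitEncode).map N487b59b3.delimit).flatten = _
  rw [List.map_map, List.flatMap]
  rfl

theorem De.nil : De (fun _ _ => ([] : List α)) := by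
  intro g
  exact (Dp.const []).congr fun x v => by rw [bitEncode_list]; rfl

theorem De.single {F : List Bool → (ℕ → ℕ) → α} (hF : De F) : De (fun x v => [F x v]) := by
  intro g
  refine ((hF (fun b => g true ++ g b)).append (Dp.const (g false))).congr fun x v => ?_
  rw [bitEncode_list, List.flatMap_cons, List.flatMap_nil, List.append_nil, delimit_eq, dl,
    List.flatMap_append, List.flatMap_assoc]
  simp

theorem De.append {F G : List Bool → (ℕ → ℕ) → List α} (hF : De F) (hG : De G) :
    De (fun x v => F x v ++ G x v) := by
  intro g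
  refine ((hF g).append (hG g)).congr fun x v => ?_
  rw [bitEncode_list, bitEncode_list, bitEncode_list, List.flatMap_append, List.flatMap_append]

theorem De.cons {F : List Bool → (ℕ → ℕ) → α} {G : List Bool → (ℕ → ℕ) → List α} (hF : De F)
    (hG : De G) : De (fun x v => F x v :: G x v) :=
  (hF.single.append hG).congr fun _ _ => rfl

/-- loops -/
theorem De.flatMap {b : Fn} {F : List Bool → (ℕ → ℕ) → ℕ → List α} (hb : Cp b)
    (hF : De (fun x v => F x (fun i => v (i + 1)) (v 0))) :
    De (fun x v => (List.range (b x v)).flatMap (fun i => F x v i)) := by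
  intro g
  refine (Dp.forE hb (hF g)).congr fun x v => ?_
  rw [bitEncode_list, List.flatMap_assoc, List.flatMap_assoc]
  congr 1
  funext i
  have := bitEncode_list (F x v i)
  rw [← List.flatMap_assoc, ← this]
  rfl

theorem De.map {b : Fn} {F : List Bool → (ℕ → ℕ) → ℕ → α} (hb : Cp b)
    (hF : De (fun x v => F x (fun i => v (i + 1)) (v 0))) :
    De (fun x v => (List.range (b x v)).map (fun i => F x v i)) := by
  refine (De.flatMap (F := fun x v i => [F x v i]) hb hF.single).congr fun x v => ?_
  induction List.range (b x v) with
  | nil => rfl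
  | cons a l ih => simp [ih]

/-- sublists given by a condition -/
theorem De.filterMap {b : Fn} {P : List Bool → (ℕ → ℕ) → ℕ → Prop}
    {F : List Bool → (ℕ → ℕ) → ℕ → α} [∀ x v i, Decidable (P x v i)] (hb : Cp b)
    (hP : Cq (fun x v => P x (fun i => v (i + 1)) (v 0)))
    (hF : De (fun x v => F x (fun i => v (i + 1)) (v 0))) :
    De (fun x v => (List.range (b x v)).flatMap (fun i => if P x v i then [F x v i] else [])) :=
  De.flatMap hb (De.ite hP hF.single De.nil)

theorem De.comp1 {g : List Bool → ℕ → α} {e : Fn} (hg : De (fun x v => g x (v 0)))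
    (he : Cp e) : De (fun x v => g x (e x v)) :=
  De.letE he hg

theorem De.comp2 {g : List Bool → ℕ → ℕ → α} {e e' : Fn}
    (hg : De (fun x v => g x (v 0) (v 1))) (he : Cp e) (he' : Cp e') :
    De (fun x v => g x (e x v) (e' x v)) :=
  De.letE he' (De.letE (he.rename (· + 1)) hg)

theorem De.comp3 {g : List Bool → ℕ → ℕ → ℕ → α} {e e' e'' : Fn}
    (hg : De (fun x v => g x (v 0) (v 1) (v 2))) (he : Cp e) (he' : Cp e') (he'' : Cp e'') :
    De (fun x v => g x (e x v) (e' x v) (e'' x v)) :=
  De.letE he'' (De.letE (he'.rename (· + 1)) (De.letE (he.rename (· + 2)) hg))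

theorem De.bool {P : Pr} [∀ x v, Decidable (P x v)] (hP : Cq P) :
    De (fun x v => decide (P x v)) := by
  intro g
  refine (Dp.iteP hP (Dp.const (g true)) (Dp.const (g false))).congr fun x v => ?_
  change _ = [decide (P x v)].flatMap g
  by_cases h : P x v <;> simp [h]

theorem De.word (w : α) : De (fun _ _ => w) := fun g => Dp.const _

/-- Encodings defined through another type. -/
theorem De.int {f g : Fn} (hf : Cp f) (hg : Cp g) :
    De (fun x v => ((f x v : ℤ) - (g x v : ℤ))) := by
  have h := De.pair (De.nat (hf.sub hg)) (De.nat (hg.sub hf))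
  intro c
  refine (h c).congr fun x v => ?_
  congr 1
  change N487b59b3.bitEncode (f x v - g x v, g x v - f x v) =
    N487b59b3.bitEncode (((f x v : ℤ) - (g x v : ℤ)).toNat, (-((f x v : ℤ) - (g x v : ℤ))).toNat)
  congr 2
  · omega
  · omega

/-! ### Main theorems -/

/-- **A function built by the rules above is polynomial-time computable.** -/
theorem isPolyTime {F : List Bool → α} (h : De (fun x _ => F x)) : IsPolyTime F :=
  isPolyTime_of_dp (h (fun b => [b])) (fun x => by simp)

/-- **Many-one reductions**: `A` reduces to `B` if `A x = B (code of F x)`. -/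
theorem manyOne {F : List Bool → α} (h : De (fun x _ => F x)) {A B : DecisionProblem}
    (hB : ∀ x, A x = B (N487b59b3.bitEncode (F x))) : ManyOneReducible A B :=
  manyOne_of_dp (h (fun b => [b])) (fun x => by simp) hB

open Classical in
/-- The decision problem of a set of instances: a word is accepted if it is the code of an
instance in the set. -/
noncomputable def problem (S : Set α) : DecisionProblem := fun x =>
  decide (∃ a, N487b59b3.bitDecode x = some a ∧ a ∈ S)

lemma problem_bitEncode (S : Set α) (a : α) :
    problem S (N487b59b3.bitEncode a) = true ↔ a ∈ S := by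
  simp only [problem, decide_eq_true_eq, N487b59b3.bitDecode_bitEncode, Option.some.injEq]
  constructor
  · rintro ⟨b, rfl, h⟩
    exact h
  · intro h
    exact ⟨a, rfl, h⟩

theorem manyOne_problem {F : List Bool → α} (h : De (fun x _ => F x)) {A : DecisionProblem}
    {S : Set α} (hS : ∀ x, A x = true ↔ F x ∈ S) : ManyOneReducible A (problem S) :=
  manyOne h fun x => Bool.eq_iff_iff.2 ((hS x).trans (problem_bitEncode S _).symm)

end Pool.Agent.H54.PT
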