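import Pool.Agent.H54.PT.Dp

/-!
# Polynomial-time functions from `Dp`
-/

set_option autoImplicit false
set_option linter.unusedSimpArgs false
set_option linter.unusedVariables false

namespace Pool.Agent.H54.PT

open Pool.Agent.helper62 Prog Function

/-! ### Restriction to finitely many stacks -/

/-- all stacks of `p` are less than `m` -/
def Supp (m : ℕ) : Prog ℕ → Prop
  | .skip => True
  | .push k _ => k < m
  | .seq p q => Supp m p ∧ Supp m q
  | .loop k p q => k < m ∧ Supp m p ∧ Supp m q
  | .ifp k p q r => k < m ∧ Supp m p ∧ Supp m q ∧ Supp m r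

lemma Supp.mono {m m' : ℕ} (h : m ≤ m') : ∀ {p : Prog ℕ}, Supp m p → Supp m' p
  | .skip, _ => trivial
  | .push _ _, hp => lt_of_lt_of_le hp h
  | .seq _ _, hp => ⟨hp.1.mono h, hp.2.mono h⟩
  | .loop _ _ _, hp => ⟨lt_of_lt_of_le hp.1 h, hp.2.1.mono h, hp.2.2.mono h⟩
  | .ifp _ _ _ _, hp => ⟨lt_of_lt_of_le hp.1 h, hp.2.1.mono h, hp.2.2.1.mono h, hp.2.2.2.mono h⟩

lemma exists_supp : ∀ p : Prog ℕ, ∃ m, Supp m p
  | .skip => ⟨0, trivial⟩
  | .push k _ => ⟨k + 1, Nat.lt_succ_self k⟩
  | .seq p q => by
    obtain ⟨m, hm⟩ := exists_supp p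
    obtain ⟨m', hm'⟩ := exists_supp q
    exact ⟨max m m', hm.mono (le_max_left _ _), hm'.mono (le_max_right _ _)⟩
  | .loop k p q => by
    obtain ⟨m, hm⟩ := exists_supp p
    obtain ⟨m', hm'⟩ := exists_supp q
    exact ⟨max (k + 1) (max m m'), lt_of_lt_of_le (Nat.lt_succ_self k) (le_max_left _ _),
      hm.mono (le_trans (le_max_left _ _) (le_max_right _ _)),
      hm'.mono (le_trans (le_max_right _ _) (le_max_right _ _))⟩
  | .ifp k p q r => by
    obtain ⟨m, hm⟩ := exists_supp p
    obtain ⟨m', hm'⟩ := exists_supp q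
    obtain ⟨m'', hm''⟩ := exists_supp r
    exact ⟨max (k + 1) (max m (max m' m'')),
      lt_of_lt_of_le (Nat.lt_succ_self k) (le_max_left _ _),
      hm.mono (le_trans (le_max_left _ _) (le_max_right _ _)),
      hm'.mono (le_trans (le_trans (le_max_left _ _) (le_max_right _ _)) (le_max_right _ _)),
      hm''.mono (le_trans (le_trans (le_max_right _ _) (le_max_right _ _)) (le_max_right _ _))⟩

/-- rename stacks -/
def toFin (m : ℕ) : Prog ℕ → Prog (Fin (m + 1))
  | .skip => .skip
  | .push k b => .push (Fin.ofNat (m + 1) k) b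
  | .seq p q => .seq (toFin m p) (toFin m q)
  | .loop k p q => .loop (Fin.ofNat (m + 1) k) (toFin m p) (toFin m q)
  | .ifp k p q r => .ifp (Fin.ofNat (m + 1) k) (toFin m p) (toFin m q) (toFin m r)

lemma ofNat_val {m k : ℕ} (h : k < m + 1) : ((Fin.ofNat (m + 1) k : Fin (m + 1)) : ℕ) = k := by
  simp [Fin.ofNat, Nat.mod_eq_of_lt h]

lemma update_val {m k : ℕ} (h : k < m + 1) (S : ℕ → List Bool) (l : List Bool) :
    (fun i : Fin (m + 1) => update S k l i) =
      update (fun i : Fin (m + 1) => S i) (Fin.ofNat (m + 1) k) l := by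
  funext i
  by_cases hi : i = Fin.ofNat (m + 1) k
  · subst hi
    rw [update_self, ofNat_val h, update_self]
  · rw [update_of_ne hi, update_of_ne]
    intro h2
    apply hi
    apply Fin.ext
    rw [ofNat_val h]
    exact h2

lemma exec_toFin {m : ℕ} {p : Prog ℕ} {S S' : ℕ → List Bool} {n : ℕ} (h : Exec p S S' n)
    (hp : Supp (m + 1) p) : Exec (toFin m p) (fun i => S i) (fun i => S' i) n := by
  induction h with
  | skip S => exact .skip _
  | push k b S =>
    rw [update_val hp]
    have := Exec.push (Fin.ofNat (m + 1) k) b (fun i : Fin (m + 1) => S i)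
    rw [ofNat_val hp] at this
    exact this
  | seq h1 h2 ih1 ih2 => exact .seq (ih1 hp.1) (ih2 hp.2)
  | @loop_nil k pf pt S h => exact .loop_nil (by rw [ofNat_val hp.1]; exact h)
  | @loop_false k pf pt S l S' S'' n m' h h1 h2 ih1 ih2 =>
    have i1 := ih1 hp.2.1
    rw [update_val hp.1] at i1
    exact .loop_false (by rw [ofNat_val hp.1]; exact h) i1 (ih2 hp)
  | @loop_true k pf pt S l S' S'' n m' h h1 h2 ih1 ih2 =>
    have i1 := ih1 hp.2.2
    rw [update_val hp.1] at i1
    exact .loop_true (by rw [ofNat_val hp.1]; exact h) i1 (ih2 hp)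
  | @ifp_nil k pn pf pt S S' n h h1 ih1 =>
    exact .ifp_nil (by rw [ofNat_val hp.1]; exact h) (ih1 hp.2.1)
  | @ifp_false k pn pf pt S l S' n h h1 ih1 =>
    have i1 := ih1 hp.2.2.1
    rw [update_val hp.1] at i1
    exact .ifp_false (by rw [ofNat_val hp.1]; exact h) i1
  | @ifp_true k pn pf pt S l S' n h h1 ih1 =>
    have i1 := ih1 hp.2.2.2
    rw [update_val hp.1] at i1
    exact .ifp_true (by rw [ofNat_val hp.1]; exact h) i1

/-! ### Reading the input -/

/-- the encoding of a word -/
def trp (w : List Bool) : List Bool := w.flatMap (fun b => [true, b, false])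

lemma trp_cons (b : Bool) (y : List Bool) : trp (b :: y) = true :: b :: false :: trp y := by
  simp [trp]

lemma length_trp (w : List Bool) : (trp w).length = 3 * w.length := by
  induction w with
  | nil => rfl
  | cons b w ih => rw [trp_cons]; simp only [List.length_cons, ih]; omega

lemma bitEncode_word (w : List Bool) : N487b59b3.bitEncode w = trp w := by
  change ((w.map N487b59b3.bitEncode).map N487b59b3.delimit).flatten = trp w
  induction w with
  | nil => rfl
  | cons b w ih =>
    rw [List.map_cons, List.map_cons, List.flatten_cons, ih, trp_cons]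
    rfl

def readProg : Prog ℕ :=
  .loop 0 .skip (.seq (.ifp 0 .skip (.push 1 false) (.push 1 true)) (.ifp 0 .skip .skip .skip))

lemma runs_read (o : List Bool) (s : ℕ → ℕ) : ∀ (y t : List Bool),
    Runs readProg (st (trp y) t o [] s) (st [] (y.reverse ++ t) o [] s) (5 * y.length + 1) := by
  intro y
  induction y with
  | nil => intro t; exact (Runs.loop_nil rfl).mono (by simp)
  | cons b y ih =>
    intro t
    rw [trp_cons]
    have h1 : Runs (.ifp 0 .skip (.push 1 false) (.push 1 true))
        (st (b :: false :: trp y) t o [] s) (st (false :: trp y) (b :: t) o [] s) 2 := by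
      have k0 : (st (b :: false :: trp y) t o [] s) 0 = b :: false :: trp y := rfl
      refine (Runs.ifp (t := 1) k0 ?_).mono le_rfl
      rw [upd_0]
      have h2 := Runs.push 1 b (st (false :: trp y) t o [] s)
      rw [upd_1, st_1] at h2
      cases b
      · exact h2
      · exact h2
    have h2 : Runs (.ifp 0 .skip .skip .skip)
        (st (false :: trp y) (b :: t) o [] s) (st (trp y) (b :: t) o [] s) 2 := by
      have k0 : (st (false :: trp y) (b :: t) o [] s) 0 = false :: trp y := rfl
      refine (Runs.ifp (t := 1) k0 ?_).mono le_rfl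
      rw [upd_0]
      exact Runs.skip _
    refine (Runs.loop_cons (k := 0) (b := true) (l := b :: false :: trp y) (t := 4) rfl (by
      rw [upd_0]; exact h1.seq h2) (ih (b :: t))).mono' ?_ ?_
    · simp
    · simp only [List.length_cons]; omega

def writeProg (g : Bool → List Bool) : Prog ℕ :=
  .loop 2 (Prog.pushes 3 (g false).reverse) (Prog.pushes 3 (g true).reverse)

lemma runs_write (g : Bool → List Bool) (s : ℕ → ℕ) : ∀ (y f : List Bool),
    Runs (writeProg g) (st [] [] y f s) (st [] [] [] (y.reverse.flatMap g ++ f) s)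
      (y.length * ((g false).length + (g true).length + 2) + 1) := by
  intro y
  induction y with
  | nil => intro f; exact (Runs.loop_nil rfl).mono (by simp)
  | cons b y ih =>
    intro f
    have h1 : Runs (if b then (Prog.pushes 3 (g true).reverse) else
        (Prog.pushes 3 (g false).reverse)) (update (st [] [] (b :: y) f s) 2 y)
        (st [] [] y (g b ++ f) s) ((g false).length + (g true).length + 1) := by
      rw [upd_2]
      cases b
      · have k := Runs.pushes (k := 3) (g false).reverse (st [] [] y f s)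
        rw [upd_3, st_3, List.reverse_reverse, List.length_reverse] at k
        exact k.mono (by omega)
      · have k := Runs.pushes (k := 3) (g true).reverse (st [] [] y f s)
        rw [upd_3, st_3, List.reverse_reverse, List.length_reverse] at k
        exact k.mono (by omega)
    refine (Runs.loop_cons (k := 2) (b := b) (l := y) rfl h1 (ih _)).mono' ?_ ?_
    · simp
    · rw [List.length_cons, Nat.succ_mul]; omega

lemma st_in (x : List Bool) : st x [] [] [] 0 = update (fun _ => []) 0 x := by
  funext k
  match k with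
  | 0 => rfl
  | 1 => rfl
  | 2 => rfl
  | 3 => rfl
  | i + 4 => rfl

lemma st_out (f : List Bool) : st [] [] [] f 0 = update (fun _ => []) 3 f := by
  funext k
  match k with
  | 0 => rfl
  | 1 => rfl
  | 2 => rfl
  | 3 => rfl
  | i + 4 => rfl

/-- The complete program. -/
lemma exists_prog {w : Wd} (hw : Dp w) (g : Bool → List Bool) :
    ∃ (p : Prog ℕ) (c : Polynomial ℕ), ∀ x : List Bool,
      Runs p (update (fun _ => []) 0 (trp x))
        (update (fun _ => []) 3 ((w x (fun _ => 0)).flatMap g)) (c.eval x.length) := by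
  obtain ⟨c, h⟩ := hw
  obtain ⟨p, hp⟩ := h (fun _ => 0) 1 (fun _ => Nat.one_pos)
  refine ⟨.seq readProg (.seq (pour 1 0) (.seq p (.seq (clear 0) (writeProg g)))),
    (5 * Polynomial.X + 1) + ((2 * Polynomial.X + 1) + (c + ((2 * Polynomial.X + 1) +
      (c * (((g false).length + (g true).length + 2 : ℕ) : Polynomial ℕ) + 1)))), fun x => ?_⟩
  have g1 := runs_read [] 0 x []
  have g2 := runs_pour10 [] (x.reverse ++ []) [] 0
  have g3 := hp x.length x [] 0 le_rfl (fun i => Nat.zero_le _) (fun i _ => rfl)
  have e : (fun _ : ℕ => (0 : ℕ → ℕ) ((fun _ => 0) (0 : ℕ))) = (fun _ => 0) := rfl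
  have hlen : (w x (fun _ => 0)).length ≤ c.eval x.length := by
    have := runs_length_le g3 2
    simp only [st_2, List.append_nil, List.length_reverse, List.length_nil, Nat.zero_add] at this
    exact this
  have g4 : Runs (clear 0) (st x [] ((w x fun _ => 0).reverse ++ []) [] 0)
      (st [] [] ((w x fun _ => 0).reverse ++ []) [] 0) (2 * x.length + 1) := by
    have := Runs.clear (k := 0) x (st x [] ((w x fun _ => 0).reverse ++ []) [] 0) rfl
    rw [upd_0] at this
    exact this
  have g5 := runs_write g 0 ((w x fun _ => 0).reverse ++ []) []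
  rw [← st_in, ← st_out]
  have e2 : (x.reverse ++ []).reverse ++ [] = x := by simp
  rw [e2] at g2
  refine (g1.seq (g2.seq (g3.seq (g4.seq g5)))).mono' ?_ ?_
  · simp
  · have i1 : ((w x fun _ => 0).reverse ++ []).length *
        ((g false).length + (g true).length + 2) ≤
        c.eval x.length * ((g false).length + (g true).length + 2) :=
      Nat.mul_le_mul_right _ (by simpa using hlen)
    simp only [Polynomial.eval_add, Polynomial.eval_mul, Polynomial.eval_X,
      Polynomial.eval_ofNat, Polynomial.eval_one, Polynomial.eval_natCast, List.length_append,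
      List.length_reverse, List.length_nil] at i1 ⊢
    push_cast
    omega

open N68a2faeb N793a5b8e

lemma isPolyTime_of_prog {β : Type} [N487b59b3 β] (F : List Bool → β) (p : Prog ℕ)
    (c : Polynomial ℕ) (h : ∀ x : List Bool, Runs p (update (fun _ => []) 0 (trp x))
        (update (fun _ => []) 3 (N487b59b3.bitEncode (F x))) (c.eval x.length)) :
    IsPolyTime F := by
  obtain ⟨m0, hm0⟩ := exists_supp p
  let m := m0 + 4
  have hm : Supp (m + 1) p := hm0.mono (by omega)
  refine ⟨Prog.toPolyTime (toFin m p) (Fin.ofNat (m + 1) 0) (Fin.ofNat (m + 1) 3) _ _ F c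
    (fun x => ?_)⟩
  obtain ⟨n, hn, he⟩ := h x
  have e1 : ((N487b59b3.toEncoding (α := List Bool)).encode x) = trp x := bitEncode_word x
  have h1 := exec_toFin he hm
  rw [update_val (by omega), update_val (by omega)] at h1
  rw [e1]
  refine ⟨n, hn.trans (pe_mono _ ?_), h1⟩
  rw [length_trp]
  omega

/-- A function whose values are written by a program is polynomial-time computable. -/
theorem isPolyTime_of_dp {β : Type} [N487b59b3 β] {F : List Bool → β} {w : Wd} (hw : Dp w)
    (h : ∀ x, N487b59b3.bitEncode (F x) = w x (fun _ => 0)) : IsPolyTime F := by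
  obtain ⟨p, c, hp⟩ := exists_prog hw (fun b => [b])
  refine isPolyTime_of_prog F p c (fun x => ?_)
  have := hp x
  rw [h x]
  simpa using this

/-- the same for the function giving the code of the values -/
theorem isPolyTime_encode_of_dp {β : Type} [N487b59b3 β] {F : List Bool → β} {w : Wd}
    (hw : Dp w) (h : ∀ x, N487b59b3.bitEncode (F x) = w x (fun _ => 0)) :
    IsPolyTime (fun x => N487b59b3.bitEncode (F x)) := by
  obtain ⟨p, c, hp⟩ := exists_prog hw (fun b => [true, b, false])
  refine isPolyTime_of_prog _ p c (fun x => ?_)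
  have := hp x
  rw [bitEncode_word, h x]
  exact this

/-- Many-one reductions. -/
theorem manyOne_of_dp {β : Type} [N487b59b3 β] {F : List Bool → β} {w : Wd} (hw : Dp w)
    (h : ∀ x, N487b59b3.bitEncode (F x) = w x (fun _ => 0)) {A B : DecisionProblem}
    (hB : ∀ x, A x = B (N487b59b3.bitEncode (F x))) : ManyOneReducible A B :=
  ⟨_, isPolyTime_encode_of_dp hw h, hB⟩

end Pool.Agent.H54.PT
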