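import Pool.Agent.H54.PT.Final

/-!
# Closure properties

`Cq P` says that the predicate `P` is decided by a computable function.
-/

set_option autoImplicit false
set_option linter.unusedSimpArgs false
set_option linter.unusedVariables false

namespace Pool.Agent.H54.PT

open Function

/-- Predicates of the input word and of variables. -/
abbrev Pr := List Bool → (ℕ → ℕ) → Prop

/-- `P` is decidable in polynomial time. -/
def Cq (P : Pr) : Prop := ∃ f : Fn, Cp f ∧ ∀ x v, f x v = 0 ↔ ¬ P x v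

lemma Cq.congr {P Q : Pr} (h : Cq P) (e : ∀ x v, P x v ↔ Q x v) : Cq Q := by
  obtain ⟨f, hf, hP⟩ := h
  exact ⟨f, hf, fun x v => by rw [hP, e]⟩

theorem Cp.succ {f : Fn} (hf : Cp f) : Cp (fun x v => f x v + 1) := hf.add (Cp.const 1)

theorem Cp.mulC {f : Fn} (hf : Cp f) (n : ℕ) : Cp (fun x v => f x v * n) := hf.mul (Cp.const n)

theorem Cq.not {P : Pr} (h : Cq P) : Cq (fun x v => ¬ P x v) := by
  obtain ⟨f, hf, hP⟩ := h
  refine ⟨fun x v => 1 - f x v, (Cp.const 1).sub hf, fun x v => ?_⟩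
  have := hP x v
  by_cases hp : P x v
  · simp only [hp, not_true_eq_false, iff_false, not_false_eq_true, iff_true] at this ⊢
    omega
  · simp only [hp, not_false_eq_true, iff_true, not_true_eq_false, iff_false] at this ⊢
    omega

theorem Cq.and {P Q : Pr} (hP : Cq P) (hQ : Cq Q) : Cq (fun x v => P x v ∧ Q x v) := by
  obtain ⟨f, hf, hP⟩ := hP
  obtain ⟨g, hg, hQ⟩ := hQ
  refine ⟨_, hf.mul hg, fun x v => ?_⟩
  rw [Nat.mul_eq_zero, hP, hQ]
  tauto

theorem Cq.or {P Q : Pr} (hP : Cq P) (hQ : Cq Q) : Cq (fun x v => P x v ∨ Q x v) := by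
  obtain ⟨f, hf, hP⟩ := hP
  obtain ⟨g, hg, hQ⟩ := hQ
  refine ⟨_, hf.add hg, fun x v => ?_⟩
  rw [Nat.add_eq_zero_iff, hP, hQ]
  tauto

theorem Cq.imp {P Q : Pr} (hP : Cq P) (hQ : Cq Q) : Cq (fun x v => P x v → Q x v) :=
  (hP.not.or hQ).congr fun x v => by tauto

theorem Cq.iff {P Q : Pr} (hP : Cq P) (hQ : Cq Q) : Cq (fun x v => P x v ↔ Q x v) :=
  ((hP.imp hQ).and (hQ.imp hP)).congr fun x v => by tauto

theorem Cq.const (p : Prop) : Cq (fun _ _ => p) := by
  by_cases h : p
  · exact ⟨_, Cp.const 1, fun x v => by simp [h]⟩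
  · exact ⟨_, Cp.const 0, fun x v => by simp [h]⟩

theorem Cq.lt {f g : Fn} (hf : Cp f) (hg : Cp g) : Cq (fun x v => f x v < g x v) :=
  ⟨_, hg.sub hf, fun x v => by omega⟩

theorem Cq.le {f g : Fn} (hf : Cp f) (hg : Cp g) : Cq (fun x v => f x v ≤ g x v) :=
  ⟨_, hg.succ.sub hf, fun x v => by omega⟩

theorem Cq.eq {f g : Fn} (hf : Cp f) (hg : Cp g) : Cq (fun x v => f x v = g x v) :=
  ((Cq.le hf hg).and (Cq.le hg hf)).congr fun x v => by omega

theorem Cq.ne {f g : Fn} (hf : Cp f) (hg : Cp g) : Cq (fun x v => f x v ≠ g x v) :=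
  (Cq.eq hf hg).not

/-- conditionals -/
theorem Cp.ite {P : Pr} {f g : Fn} [∀ x v, Decidable (P x v)] (hP : Cq P) (hf : Cp f)
    (hg : Cp g) : Cp (fun x v => if P x v then f x v else g x v) := by
  obtain ⟨e, he, hP⟩ := hP
  refine (Cp.add (((Cp.const 1).sub ((Cp.const 1).sub he)).mul hf)
    (((Cp.const 1).sub he).mul hg)).congr fun x v => ?_
  have := hP x v
  by_cases hp : P x v
  · have h0 : e x v ≠ 0 := fun h => (this.1 h) hp
    rw [if_pos hp]
    have e1 : 1 - e x v = 0 := by omega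
    rw [e1]
    simp
  · have h0 : e x v = 0 := this.2 hp
    rw [if_neg hp, h0]
    simp

theorem Dp.iteP {P : Pr} {w w' : Wd} [∀ x v, Decidable (P x v)] (hP : Cq P) (hf : Dp w)
    (hg : Dp w') : Dp (fun x v => if P x v then w x v else w' x v) := by
  obtain ⟨e, he, hP⟩ := hP
  refine (Dp.ite he hg hf).congr fun x v => ?_
  have := hP x v
  by_cases hp : P x v
  · have h0 : e x v ≠ 0 := fun h => (this.1 h) hp
    rw [if_pos hp, if_neg h0]
  · have h0 : e x v = 0 := this.2 hp
    rw [if_neg hp, if_pos h0]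

/-- indicators -/
theorem Cp.ind {P : Pr} [∀ x v, Decidable (P x v)] (hP : Cq P) :
    Cp (fun x v => if P x v then 1 else 0) :=
  Cp.ite hP (Cp.const 1) (Cp.const 0)

theorem Cq.letE {e : Fn} {P : Pr} (he : Cp e) (hP : Cq P) :
    Cq (fun x v => P x (cons (e x v) v)) := by
  obtain ⟨f, hf, hP⟩ := hP
  exact ⟨_, Cp.letE he hf, fun x v => hP _ _⟩

theorem Cq.rename {P : Pr} (h : Cq P) (σ : ℕ → ℕ) : Cq (fun x v => P x (fun i => v (σ i))) := by
  obtain ⟨f, hf, hP⟩ := h
  exact ⟨_, hf.rename σ, fun x v => hP _ _⟩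

/-- bounded quantifiers -/
theorem Cq.ex {b : Fn} {P : Pr} (hb : Cp b) (hP : Cq P) :
    Cq (fun x v => ∃ i < b x v, P x (cons i v)) := by
  obtain ⟨f, hf, hP⟩ := hP
  refine ⟨_, Cp.sum hb hf, fun x v => ?_⟩
  rw [Finset.sum_eq_zero_iff]
  simp only [Finset.mem_range, hP]
  push Not
  exact Iff.rfl

theorem Cq.all {b : Fn} {P : Pr} (hb : Cp b) (hP : Cq P) :
    Cq (fun x v => ∀ i < b x v, P x (cons i v)) :=
  (Cq.ex hb hP.not).not.congr fun x v => by push Not; exact Iff.rfl

/-- finite disjunctions -/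
theorem Cq.exList {α : Type*} (l : List α) {P : α → Pr} (hP : ∀ a ∈ l, Cq (P a)) :
    Cq (fun x v => ∃ a ∈ l, P a x v) := by
  induction l with
  | nil => exact (Cq.const False).congr fun x v => by simp
  | cons a l ih =>
    refine ((hP a (by simp)).or (ih fun b hb => hP b (by simp [hb]))).congr fun x v => ?_
    simp

theorem Cq.allList {α : Type*} (l : List α) {P : α → Pr} (hP : ∀ a ∈ l, Cq (P a)) :
    Cq (fun x v => ∀ a ∈ l, P a x v) := by
  refine (Cq.exList l (fun a ha => (hP a ha).not)).not.congr fun x v => ?_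
  push Not
  exact Iff.rfl

/-! ### Substitution of computed values -/

/-- function of one variable -/
theorem Cp.comp1 {g : List Bool → ℕ → ℕ} {e : Fn} (hg : Cp (fun x v => g x (v 0)))
    (he : Cp e) : Cp (fun x v => g x (e x v)) :=
  Cp.letE he hg

theorem Cp.comp2 {g : List Bool → ℕ → ℕ → ℕ} {e e' : Fn}
    (hg : Cp (fun x v => g x (v 0) (v 1))) (he : Cp e) (he' : Cp e') :
    Cp (fun x v => g x (e x v) (e' x v)) :=
  Cp.letE he' (Cp.letE (he.rename (· + 1)) hg)

theorem Cp.comp3 {g : List Bool → ℕ → ℕ → ℕ → ℕ} {e e' e'' : Fn}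
    (hg : Cp (fun x v => g x (v 0) (v 1) (v 2))) (he : Cp e) (he' : Cp e') (he'' : Cp e'') :
    Cp (fun x v => g x (e x v) (e' x v) (e'' x v)) :=
  Cp.letE he'' (Cp.letE (he'.rename (· + 1)) (Cp.letE (he.rename (· + 2)) hg))

theorem Cp.comp4 {g : List Bool → ℕ → ℕ → ℕ → ℕ → ℕ} {e e' e'' e3 : Fn}
    (hg : Cp (fun x v => g x (v 0) (v 1) (v 2) (v 3))) (he : Cp e) (he' : Cp e')
    (he'' : Cp e'') (he3 : Cp e3) :
    Cp (fun x v => g x (e x v) (e' x v) (e'' x v) (e3 x v)) :=
  Cp.letE he3 (Cp.letE (he''.rename (· + 1)) (Cp.letE (he'.rename (· + 2))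
    (Cp.letE (he.rename (· + 3)) hg)))

theorem Cq.comp1 {g : List Bool → ℕ → Prop} {e : Fn} (hg : Cq (fun x v => g x (v 0)))
    (he : Cp e) : Cq (fun x v => g x (e x v)) :=
  Cq.letE he hg

theorem Cq.comp2 {g : List Bool → ℕ → ℕ → Prop} {e e' : Fn}
    (hg : Cq (fun x v => g x (v 0) (v 1))) (he : Cp e) (he' : Cp e') :
    Cq (fun x v => g x (e x v) (e' x v)) :=
  Cq.letE he' (Cq.letE (he.rename (· + 1)) hg)

theorem Cq.comp3 {g : List Bool → ℕ → ℕ → ℕ → Prop} {e e' e'' : Fn}
    (hg : Cq (fun x v => g x (v 0) (v 1) (v 2))) (he : Cp e) (he' : Cp e') (he'' : Cp e'') :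
    Cq (fun x v => g x (e x v) (e' x v) (e'' x v)) :=
  Cq.letE he'' (Cq.letE (he'.rename (· + 1)) (Cq.letE (he.rename (· + 2)) hg))

theorem Cq.comp4 {g : List Bool → ℕ → ℕ → ℕ → ℕ → Prop} {e e' e'' e3 : Fn}
    (hg : Cq (fun x v => g x (v 0) (v 1) (v 2) (v 3))) (he : Cp e) (he' : Cp e')
    (he'' : Cp e'') (he3 : Cp e3) :
    Cq (fun x v => g x (e x v) (e' x v) (e'' x v) (e3 x v)) :=
  Cq.letE he3 (Cq.letE (he''.rename (· + 1)) (Cq.letE (he'.rename (· + 2))
    (Cq.letE (he.rename (· + 3)) hg)))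

theorem Dp.comp1 {g : List Bool → ℕ → List Bool} {e : Fn} (hg : Dp (fun x v => g x (v 0)))
    (he : Cp e) : Dp (fun x v => g x (e x v)) :=
  Dp.letE he hg

theorem Dp.comp2 {g : List Bool → ℕ → ℕ → List Bool} {e e' : Fn}
    (hg : Dp (fun x v => g x (v 0) (v 1))) (he : Cp e) (he' : Cp e') :
    Dp (fun x v => g x (e x v) (e' x v)) :=
  Dp.letE he' (Dp.letE (he.rename (· + 1)) hg)

theorem Dp.comp3 {g : List Bool → ℕ → ℕ → ℕ → List Bool} {e e' e'' : Fn}
    (hg : Dp (fun x v => g x (v 0) (v 1) (v 2))) (he : Cp e) (he' : Cp e') (he'' : Cp e'') :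
    Dp (fun x v => g x (e x v) (e' x v) (e'' x v)) :=
  Dp.letE he'' (Dp.letE (he'.rename (· + 1)) (Dp.letE (he.rename (· + 2)) hg))

/-- bounded sums, with explicit variables -/
theorem Cp.sum' {b : Fn} {f : List Bool → (ℕ → ℕ) → ℕ → ℕ} (hb : Cp b)
    (hf : Cp (fun x v => f x (fun i => v (i + 1)) (v 0))) :
    Cp (fun x v => ∑ i ∈ Finset.range (b x v), f x v i) :=
  Cp.sum hb hf

theorem Cq.ex' {b : Fn} {P : List Bool → (ℕ → ℕ) → ℕ → Prop} (hb : Cp b)
    (hf : Cq (fun x v => P x (fun i => v (i + 1)) (v 0))) :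
    Cq (fun x v => ∃ i < b x v, P x v i) :=
  Cq.ex hb hf

theorem Cq.all' {b : Fn} {P : List Bool → (ℕ → ℕ) → ℕ → Prop} (hb : Cp b)
    (hf : Cq (fun x v => P x (fun i => v (i + 1)) (v 0))) :
    Cq (fun x v => ∀ i < b x v, P x v i) :=
  Cq.all hb hf

theorem Dp.forE' {b : Fn} {w : List Bool → (ℕ → ℕ) → ℕ → List Bool} (hb : Cp b)
    (hf : Dp (fun x v => w x (fun i => v (i + 1)) (v 0))) :
    Dp (fun x v => (List.range (b x v)).flatMap (fun i => w x v i)) :=
  Dp.forE hb hf

/-- number of elements of a set -/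
theorem Cp.count {b : Fn} {P : List Bool → (ℕ → ℕ) → ℕ → Prop} [∀ x v i, Decidable (P x v i)]
    (hb : Cp b) (hf : Cq (fun x v => P x (fun i => v (i + 1)) (v 0))) :
    Cp (fun x v => ((Finset.range (b x v)).filter (fun i => P x v i)).card) := by
  refine (Cp.sum' (f := fun x v i => if P x v i then 1 else 0) hb (Cp.ind hf)).congr
    fun x v => ?_
  rw [Finset.card_filter]

/-! ### Division -/

theorem Cp.div {f g : Fn} (hf : Cp f) (hg : Cp g) : Cp (fun x v => f x v / g x v) := by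
  have h : Cp (fun x v => if g x v = 0 then 0 else
      ((Finset.range (f x v)).filter (fun i => (i + 1) * g x v ≤ f x v)).card) := by
    refine Cp.ite (Cq.eq hg (Cp.const 0)) (Cp.const 0) (Cp.count hf (Cq.le ?_ ?_))
    · exact ((Cp.var 0).add (Cp.const 1)).mul (hg.rename (· + 1))
    · exact hf.rename (· + 1)
  refine h.congr fun x v => ?_
  split_ifs with h0
  · rw [h0, Nat.div_zero]
  · generalize f x v = a at *
    generalize g x v = b at *
    have hb : 0 < b := Nat.pos_of_ne_zero h0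
    have : (Finset.range a).filter (fun i => (i + 1) * b ≤ a) = Finset.range (a / b) := by
      ext i
      simp only [Finset.mem_filter, Finset.mem_range]
      have h1 : (i + 1) * b ≤ a ↔ i + 1 ≤ a / b := (Nat.le_div_iff_mul_le hb).symm
      have h2 : a / b ≤ a := Nat.div_le_self _ _
      constructor
      · rintro ⟨_, h⟩
        have := h1.1 h
        omega
      · intro h
        exact ⟨by omega, h1.2 h⟩
    rw [this, Finset.card_range]

theorem Cp.mod {f g : Fn} (hf : Cp f) (hg : Cp g) : Cp (fun x v => f x v % g x v) :=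
  (hf.sub (hg.mul (hf.div hg))).congr fun x v => by
    have := Nat.mod_add_div (f x v) (g x v)
    omega

/-- polynomials -/
theorem Cp.poly (p : Polynomial ℕ) {f : Fn} (hf : Cp f) : Cp (fun x v => p.eval (f x v)) := by
  induction p using Polynomial.induction_on' with
  | add p q hp hq => exact (hp.add hq).congr fun x v => by rw [Polynomial.eval_add]
  | monomial n a =>
    induction n with
    | zero => exact (Cp.const a).congr fun x v => by simp
    | succ n ih =>
      refine (ih.mul hf).congr fun x v => ?_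
      simp only [Polynomial.eval_monomial]
      ring

theorem Cp.pow {f : Fn} (hf : Cp f) (n : ℕ) : Cp (fun x v => f x v ^ n) :=
  (Cp.poly (Polynomial.X ^ n) hf).congr fun x v => by simp

/-- finite tables -/
theorem Cp.table (C : ℕ) (g : ℕ → ℕ) {f : Fn} (hf : Cp f) :
    Cp (fun x v => if f x v < C then g (f x v) else 0) := by
  induction C with
  | zero => exact (Cp.const 0).congr fun x v => by simp
  | succ C ih =>
    refine (Cp.ite (Cq.eq hf (Cp.const C)) (Cp.const (g C)) ih).congr fun x v => ?_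
    by_cases h : f x v = C
    · simp [h]
    · have : f x v < C + 1 ↔ f x v < C := by omega
      simp only [h, if_false, this]

theorem Cq.table (C : ℕ) (P : ℕ → Prop) {f : Fn} (hf : Cp f) :
    Cq (fun x v => f x v < C ∧ P (f x v)) := by
  classical
  refine ((Cq.exList ((List.range C).filter (fun i => decide (P i)))
    (P := fun a x v => f x v = a) (fun a _ => Cq.eq hf (Cp.const a)))).congr fun x v => ?_
  simp only [List.mem_filter, List.mem_range, decide_eq_true_eq]
  constructor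
  · rintro ⟨a, ⟨h1, h2⟩, h3⟩
    subst h3
    exact ⟨h1, h2⟩
  · rintro ⟨h1, h2⟩
    exact ⟨_, ⟨h1, h2⟩, rfl⟩

theorem Cq.table2 (C D : ℕ) (P : ℕ → ℕ → Prop) {f g : Fn} (hf : Cp f) (hg : Cp g) :
    Cq (fun x v => f x v < C ∧ g x v < D ∧ P (f x v) (g x v)) := by
  refine (Cq.exList (List.range C) (P := fun a x v => f x v = a ∧ (g x v < D ∧ P a (g x v)))
    (fun a _ => (Cq.eq hf (Cp.const a)).and (Cq.table D _ hg))).congr fun x v => ?_
  simp only [List.mem_range]
  constructor
  · rintro ⟨a, h1, h2, h3, h4⟩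
    subst h2
    exact ⟨h1, h3, h4⟩
  · rintro ⟨h1, h2, h3⟩
    exact ⟨_, h1, rfl, h2, h3⟩

/-- maximum and minimum -/
theorem Cp.max {f g : Fn} (hf : Cp f) (hg : Cp g) : Cp (fun x v => Max.max (f x v) (g x v)) :=
  (hf.add (hg.sub hf)).congr fun x v => by omega

theorem Cp.min {f g : Fn} (hf : Cp f) (hg : Cp g) : Cp (fun x v => Min.min (f x v) (g x v)) :=
  (hf.sub (hf.sub hg)).congr fun x v => by omega

/-- the bits of the input as a predicate -/
theorem Cq.bit {e : Fn} (he : Cp e) : Cq (fun x v => x.getD (e x v) false = true) := by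
  refine (Cq.eq (Cp.bit he) (Cp.const 1)).congr fun x v => ?_
  cases x.getD (e x v) false <;> simp

/-! ### Delimited words -/

/-- the code of `delimit` -/
def dl (l : List Bool) : List Bool := l.flatMap (fun b => [true, b])

lemma delimit_eq (l : List Bool) : N487b59b3.delimit l = dl l ++ [false] := by
  induction l with
  | nil => rfl
  | cons b l ih =>
    rw [N487b59b3.delimit, ih]
    simp [dl]

@[simp] lemma dl_nil : dl [] = [] := rfl
@[simp] lemma dl_append (l l' : List Bool) : dl (l ++ l') = dl l ++ dl l' := by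
  simp [dl]

/-- code each bit by `g` -/
abbrev cod (g : Bool → List Bool) (l : List Bool) : List Bool := l.flatMap g

end Pool.Agent.H54.PT
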