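import Pool.Agent.H54.PT.Tab

/-!
# 3-SAT is NP-hard, in computable form

`np_sat3`: every language in `NP` is given by computable functions describing the clauses of a
formula with three literals in each clause.
-/

set_option autoImplicit false
set_option linter.unusedSimpArgs false
set_option linter.unusedVariables false

namespace Pool.Agent.H54.PT

open Function

/-- A function defined by finitely many cases. -/
theorem Cp.cases {f : List Bool → (ℕ → ℕ) → ℕ → ℕ} {e : Fn} (C : ℕ)
    (hf : ∀ c < C, Cp (fun x v => f x v c)) (he : Cp e) :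
    Cp (fun x v => if e x v < C then f x v (e x v) else 0) := by
  induction C with
  | zero => exact (Cp.const 0).congr fun x v => by simp
  | succ C ih =>
    refine (Cp.ite (Cq.eq he (Cp.const C)) (hf C (Nat.lt_succ_self C))
      (ih fun c hc => hf c (by omega))).congr fun x v => ?_
    by_cases h : e x v = C
    · simp [h]
    · have : e x v < C + 1 ↔ e x v < C := by omega
      simp only [h, if_false, this]

/-- the literal `n` is true: the variable is `n / 2` and the literal is positive if `n` is odd -/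
def lsat (a : ℕ → Bool) (n : ℕ) : Prop := a (n / 2) = decide (n % 2 = 1)

section conv

variable (Θ : List CT)

/-- common width of the clauses -/
def Wd3 : ℕ := (Θ.map (fun τ => τ.lits.length)).sum + 1

lemma Wd3_pos : 0 < Wd3 Θ := Nat.succ_pos _

lemma lt_Wd3 {τ : CT} (h : τ ∈ Θ) : τ.lits.length < Wd3 Θ :=
  Nat.lt_succ_of_le (List.single_le_sum (by simp) _ (List.mem_map.2 ⟨τ, h, rfl⟩))

open Classical in
/-- the `i`-th literal of the template `τ` at `(t, p)` -/
noncomputable def hl (x : List Bool) (t p τ i : ℕ) : ℕ :=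
  match Θ[τ]? with
  | none => 0
  | some τ' => if τ'.cond x t p then
      (match τ'.lits[i]? with
        | none => 1
        | some l => 2 * (2 * l.var t p + 1) + l.sg.toNat)
      else 0

lemma Cp.pair {f g : Fn} (hf : Cp f) (hg : Cp g) : Cp (fun x v => Nat.pair (f x v) (g x v)) := by
  refine (Cp.ite (Cq.lt hf hg) ((hg.mul hg).add hf) (((hf.mul hf).add hf).add hg)).congr
    fun x v => ?_
  rw [Nat.pair]

lemma cp_hl (τ i : ℕ) : Cp (fun x v => hl Θ x (v 0) (v 1) τ i) := by
  classical
  unfold hl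
  cases Θ[τ]? with
  | none => exact Cp.const 0
  | some τ' =>
    refine Cp.ite τ'.hc ?_ (Cp.const 0)
    cases τ'.lits[i]? with
    | none => exact Cp.const 1
    | some l =>
      refine ((Cp.const 2).mul (((Cp.const 2).mul ?_).add (Cp.const 1))).add (Cp.const _)
      refine Cp.pair ((Cp.var 0).add (Cp.const _)) (Cp.pair ?_ (Cp.const _))
      match l.pk with
      | 0 => exact Cp.const 0
      | 1 => exact Cp.var 1
      | _ + 2 => exact (Cp.var 1).succ

variable (T : List Bool → ℕ)

/-- number of clauses, except one -/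
def nG (x : List Bool) : ℕ := T x * (T x + 1) * Θ.length * Wd3 Θ

open Classical in
/-- the literals -/
noncomputable def lit3 (x : List Bool) (j l : ℕ) : ℕ :=
  if j = nG Θ T x then 0
  else if l = 0 then (if j % Wd3 Θ = 0 then 1 else 2 * (2 * j + 2))
  else if l = 1 then
    (if j / Wd3 Θ % Θ.length < Θ.length then
      (if j % Wd3 Θ < Wd3 Θ then hl Θ x (j / Wd3 Θ / Θ.length / (T x + 1))
        (j / Wd3 Θ / Θ.length % (T x + 1)) (j / Wd3 Θ % Θ.length) (j % Wd3 Θ) else 0) else 0)
  else (if j % Wd3 Θ + 1 = Wd3 Θ then 1 else 2 * (2 * (j + 1) + 2) + 1)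

lemma cp_lit3 {T : List Bool → ℕ} (hT : Cp (fun x _ => T x)) :
    Cp (fun x v => lit3 Θ T x (v 0) (v 1)) := by
  have hG : Cp (fun x _ => nG Θ T x) := ((hT.mul hT.succ).mulC _).mulC _
  have h1 : Cp (fun _ v => v 0 / Wd3 Θ) := (Cp.var 0).div (Cp.const _)
  have h2 : Cp (fun _ v => v 0 % Wd3 Θ) := (Cp.var 0).mod (Cp.const _)
  have h3 : Cp (fun _ v => v 0 / Wd3 Θ % Θ.length) := h1.mod (Cp.const _)
  have h4 : Cp (fun _ v => v 0 / Wd3 Θ / Θ.length) := h1.div (Cp.const _)
  have h5 : Cp (fun x v => v 0 / Wd3 Θ / Θ.length / (T x + 1)) := h4.div hT.succ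
  have h6 : Cp (fun x v => v 0 / Wd3 Θ / Θ.length % (T x + 1)) := h4.mod hT.succ
  refine Cp.ite (Cq.eq (Cp.var 0) hG) (Cp.const 0) (Cp.ite (Cq.eq (Cp.var 1) (Cp.const 0))
    (Cp.ite (Cq.eq h2 (Cp.const 0)) (Cp.const 1)
      ((Cp.const 2).mul (((Cp.const 2).mul (Cp.var 0)).add (Cp.const 2))))
    (Cp.ite (Cq.eq (Cp.var 1) (Cp.const 1)) ?_
      (Cp.ite (Cq.eq h2.succ (Cp.const _)) (Cp.const 1)
        (((Cp.const 2).mul (((Cp.const 2).mul (Cp.var 0).succ).add (Cp.const 2))).succ))))
  refine Cp.cases (f := fun x v c => if v 0 % Wd3 Θ < Wd3 Θ then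
    hl Θ x (v 0 / Wd3 Θ / Θ.length / (T x + 1)) (v 0 / Wd3 Θ / Θ.length % (T x + 1)) c
      (v 0 % Wd3 Θ) else 0) Θ.length (fun c _ => ?_) h3
  refine Cp.cases (f := fun x v i =>
    hl Θ x (v 0 / Wd3 Θ / Θ.length / (T x + 1)) (v 0 / Wd3 Θ / Θ.length % (T x + 1)) c i)
    (Wd3 Θ) (fun i _ => ?_) h2
  exact Cp.comp2 (g := fun x t p => hl Θ x t p c i) (cp_hl Θ c i) h5 h6

/-- One block of clauses. -/
lemma block_iff (W : ℕ) (hW : 0 < W) (e : ℕ → Prop) (y : ℕ → Bool)
    (h : ∀ i < W, (i ≠ 0 ∧ y i = false) ∨ e i ∨ (i + 1 ≠ W ∧ y (i + 1) = true)) :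
    ∃ i < W, e i := by
  by_contra hne
  push Not at hne
  have key : ∀ i < W, i ≠ 0 → y i = true := by
    intro i
    induction i with
    | zero => intro _ h; exact absurd rfl h
    | succ i ih =>
      intro hi _
      rcases h i (by omega) with ⟨h1, h2⟩ | h1 | ⟨_, h2⟩
      · rw [ih (by omega) h1] at h2
        cases h2
      · exact absurd h1 (hne i (by omega))
      · exact h2
  rcases h (W - 1) (by omega) with ⟨h1, h2⟩ | h1 | ⟨h1, _⟩
  · rw [key _ (by omega) h1] at h2
    cases h2
  · exact hne _ (by omega) h1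
  · omega

variable {T}

lemma lsat_hl {b : ℕ → Bool} {a : ℕ → Bool} (h0 : a 0 = false) (hb : ∀ n, a (2 * n + 1) = b n)
    (x : List Bool) (t p : ℕ) {τ : ℕ} (hτ : τ < Θ.length) :
    (∃ i < Wd3 Θ, lsat a (hl Θ x t p τ i)) ↔ (Θ[τ]).holds b x t p := by
  have e : ∀ i, hl Θ x t p τ i = (by classical exact if (Θ[τ]).cond x t p then
      (match (Θ[τ]).lits[i]? with
        | none => 1
        | some l => 2 * (2 * l.var t p + 1) + l.sg.toNat)
      else 0) := by
    intro i
    unfold hl
    rw [List.getElem?_eq_getElem hτ]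
  have s0 : lsat a 0 := by simp [lsat, h0]
  have s1 : ¬ lsat a 1 := by simp [lsat, h0]
  have s2 : ∀ l : TL, lsat a (2 * (2 * l.var t p + 1) + l.sg.toNat) ↔ l.holds b t p := by
    intro l
    unfold lsat TL.holds
    cases hl : l.sg with
    | false =>
      have e1 : (2 * (2 * l.var t p + 1) + false.toNat) / 2 = 2 * l.var t p + 1 := by
        simp only [Bool.toNat_false]; omega
      have e2 : (2 * (2 * l.var t p + 1) + false.toNat) % 2 = 0 := by
        simp only [Bool.toNat_false]; omega
      rw [e1, e2, hb]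
      simp
    | true =>
      have e1 : (2 * (2 * l.var t p + 1) + true.toNat) / 2 = 2 * l.var t p + 1 := by
        simp only [Bool.toNat_true]; omega
      have e2 : (2 * (2 * l.var t p + 1) + true.toNat) % 2 = 1 := by
        simp only [Bool.toNat_true]; omega
      rw [e1, e2, hb]
      simp
  unfold CT.holds
  by_cases hc : (Θ[τ]).cond x t p
  · simp only [e, if_pos hc]
    constructor
    · rintro ⟨i, hi, hs⟩ _
      cases hli : (Θ[τ]).lits[i]? with
      | none => rw [hli] at hs; exact absurd hs s1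
      | some l =>
        rw [hli] at hs
        exact ⟨l, List.mem_of_getElem? hli, (s2 l).1 hs⟩
    · intro h
      obtain ⟨l, hl, hh⟩ := h hc
      obtain ⟨i, hi, hil⟩ := List.mem_iff_getElem.1 hl
      refine ⟨i, hi.trans (lt_Wd3 Θ (List.getElem_mem hτ)), ?_⟩
      rw [List.getElem?_eq_getElem hi, hil]
      exact (s2 l).2 hh
  · simp only [e, if_neg hc]
    constructor
    · intro _ h
      exact absurd h hc
    · intro _
      exact ⟨0, Wd3_pos Θ, s0⟩

theorem sat_iff_lit3 (x : List Bool) :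
    (∃ b, Sat (T x) Θ x b) ↔ ∃ a, ∀ j < nG Θ T x + 1, ∃ l < 3, lsat a (lit3 Θ T x j l) := by
  classical
  have hW := Wd3_pos Θ
  constructor
  · rintro ⟨b, hb⟩
    let e : ℕ → ℕ → Prop := fun g i => ∀ a : ℕ → Bool, a 0 = false → (∀ n, a (2 * n + 1) = b n) →
      lsat a (hl Θ x (g / Θ.length / (T x + 1)) (g / Θ.length % (T x + 1)) (g % Θ.length) i)
    let y : ℕ → Bool := fun c => decide (∀ j < c % Wd3 Θ, ¬ e (c / Wd3 Θ) j)
    let a : ℕ → Bool := fun n => if n = 0 then false else if n % 2 = 1 then b (n / 2)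
      else y ((n - 2) / 2)
    have a0 : a 0 = false := rfl
    have a1 : ∀ n, a (2 * n + 1) = b n := by
      intro n
      have e1 : (2 * n + 1) / 2 = n := by omega
      simp only [a]
      rw [if_neg (by omega), if_pos (by omega), e1]
    have a2 : ∀ n, a (2 * n + 2) = y n := by
      intro n
      have e1 : (2 * n + 2 - 2) / 2 = n := by omega
      simp only [a]
      rw [if_neg (by omega), if_neg (by omega), e1]
    have hea : ∀ (a' : ℕ → Bool), a' 0 = false → (∀ n, a' (2 * n + 1) = b n) →
        ∀ t p (τ i : ℕ), τ < Θ.length → (lsat a (hl Θ x t p τ i) ↔ lsat a' (hl Θ x t p τ i)) := by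
      intro a' h0 h1 t p τ i hτ
      unfold hl
      rw [List.getElem?_eq_getElem hτ]
      simp only
      split_ifs with hc
      · cases (Θ[τ]).lits[i]? with
        | none => simp [lsat, a0, h0]
        | some l =>
          simp only [lsat]
          have e1 : (2 * (2 * l.var t p + 1) + l.sg.toNat) / 2 = 2 * l.var t p + 1 := by
            have := Bool.toNat_le l.sg
            omega
          rw [e1, a1, h1]
      · simp [lsat, a0, h0]
    refine ⟨a, fun j hj => ?_⟩
    by_cases hjG : j = nG Θ T x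
    · refine ⟨0, by omega, ?_⟩
      have : lit3 Θ T x j 0 = 0 := by unfold lit3; rw [if_pos hjG]
      rw [this]
      simp [lsat, a0]
    have hj' : j < nG Θ T x := by omega
    have hΘ : 0 < Θ.length := by
      rcases Nat.eq_zero_or_pos Θ.length with h | h
      · rw [nG, h, Nat.mul_zero, Nat.zero_mul] at hj'
        omega
      · exact h
    -- the block
    set g := j / Wd3 Θ with hg
    set i := j % Wd3 Θ with hi
    have hiW : i < Wd3 Θ := Nat.mod_lt _ hW
    have hτ : g % Θ.length < Θ.length := Nat.mod_lt _ hΘ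
    have hp : g / Θ.length % (T x + 1) ≤ T x := by
      have := Nat.mod_lt (g / Θ.length) (Nat.succ_pos (T x))
      exact Nat.lt_succ_iff.1 this
    have ht : g / Θ.length / (T x + 1) < T x := by
      rw [Nat.div_div_eq_div_mul, Nat.div_lt_iff_lt_mul (by positivity), hg,
        Nat.div_lt_iff_lt_mul hW]
      unfold nG at hj'
      calc j < T x * (T x + 1) * Θ.length * Wd3 Θ := hj'
        _ = T x * (Θ.length * (T x + 1)) * Wd3 Θ := by ring
    have hex : ∃ i' < Wd3 Θ, e g i' := by
      have := hb _ ht _ hp (Θ[g % Θ.length]) (List.getElem_mem hτ)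
      obtain ⟨i', h1, h2⟩ := (lsat_hl Θ a0 a1 x _ _ hτ).2 this
      exact ⟨i', h1, fun a' h0 h1' => (hea a' h0 h1' _ _ _ _ hτ).1 h2⟩
    have l1 : lit3 Θ T x j 1 = hl Θ x (g / Θ.length / (T x + 1)) (g / Θ.length % (T x + 1))
        (g % Θ.length) i := by
      unfold lit3
      rw [if_neg hjG, if_neg one_ne_zero, if_pos rfl, if_pos hτ, if_pos hiW]
    have l0 : i ≠ 0 → lit3 Θ T x j 0 = 2 * (2 * j + 2) := by
      intro h
      unfold lit3
      rw [if_neg hjG, if_pos rfl, if_neg h]
    have l2 : i + 1 ≠ Wd3 Θ → lit3 Θ T x j 2 = 2 * (2 * (j + 1) + 2) + 1 := by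
      intro h
      unfold lit3
      rw [if_neg hjG, if_neg (by omega), if_neg (by omega), if_neg h]
    by_cases hei : e g i
    · refine ⟨1, by omega, ?_⟩
      rw [l1]
      exact hei a a0 a1
    by_cases hbef : ∃ i' < i, e g i'
    · obtain ⟨i', h1, h2⟩ := hbef
      refine ⟨0, by omega, ?_⟩
      rw [l0 (by omega)]
      have e1 : 2 * (2 * j + 2) / 2 = 2 * j + 2 := by omega
      have e2 : 2 * (2 * j + 2) % 2 = 0 := by omega
      simp only [lsat, e1, e2, a2, y]
      simp only [zero_ne_one, decide_false, decide_eq_false_iff_not]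
      push Not
      exact ⟨i', h1, h2⟩
    · push Not at hbef
      obtain ⟨i', h1, h2⟩ := hex
      have hii : i < i' := by
        rcases Nat.lt_trichotomy i' i with h | h | h
        · exact absurd h2 (hbef i' h)
        · subst h; exact absurd h2 hei
        · exact h
      refine ⟨2, by omega, ?_⟩
      rw [l2 (by omega)]
      have e1 : (2 * (2 * (j + 1) + 2) + 1) / 2 = 2 * (j + 1) + 2 := by omega
      have e2 : (2 * (2 * (j + 1) + 2) + 1) % 2 = 1 := by omega
      have hdm := Nat.div_add_mod j (Wd3 Θ)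
      rw [← hg, ← hi] at hdm
      have e3 : (j + 1) % Wd3 Θ = i + 1 := by
        have : j + 1 = (i + 1) + Wd3 Θ * g := by omega
        rw [this, Nat.add_mul_mod_self_left, Nat.mod_eq_of_lt (by omega)]
      have e4 : (j + 1) / Wd3 Θ = g := by
        have : j + 1 = (i + 1) + Wd3 Θ * g := by omega
        rw [this, Nat.add_mul_div_left _ _ hW, Nat.div_eq_of_lt (by omega), Nat.zero_add]
      simp only [lsat, e1, e2, a2, y, e3, e4, decide_true, decide_eq_true_eq]
      intro k hk
      by_cases hki : k = i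
      · subst hki; exact hei
      · exact hbef k (by omega)
  · rintro ⟨a, ha⟩
    have a0 : a 0 = false := by
      obtain ⟨l, hl, hs⟩ := ha (nG Θ T x) (by omega)
      have : lit3 Θ T x (nG Θ T x) l = 0 := by unfold lit3; rw [if_pos rfl]
      rw [this] at hs
      simpa [lsat] using hs
    refine ⟨fun n => a (2 * n + 1), fun t ht p hp τ' hτ' => ?_⟩
    obtain ⟨τ, hτ, rfl⟩ := List.mem_iff_getElem.1 hτ'
    refine (lsat_hl Θ a0 (fun n => rfl) x t p hτ).1 ?_
    set g := (t * (T x + 1) + p) * Θ.length + τ with hg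
    refine block_iff (Wd3 Θ) hW _ (fun i => a (2 * (g * Wd3 Θ + i) + 2)) (fun i hi => ?_)
    have hgl : g < T x * (T x + 1) * Θ.length := by
      have h1 : t * (T x + 1) + p < T x * (T x + 1) := by
        calc t * (T x + 1) + p < t * (T x + 1) + (T x + 1) := by omega
          _ = (t + 1) * (T x + 1) := by ring
          _ ≤ T x * (T x + 1) := Nat.mul_le_mul_right _ ht
      calc g < (t * (T x + 1) + p) * Θ.length + Θ.length := by omega
        _ = (t * (T x + 1) + p + 1) * Θ.length := by ring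
        _ ≤ T x * (T x + 1) * Θ.length := Nat.mul_le_mul_right _ h1
    have hj : g * Wd3 Θ + i < nG Θ T x := by
      calc g * Wd3 Θ + i < g * Wd3 Θ + Wd3 Θ := by omega
        _ = (g + 1) * Wd3 Θ := by ring
        _ ≤ nG Θ T x := Nat.mul_le_mul_right _ hgl
    have m1 : (g * Wd3 Θ + i) % Wd3 Θ = i := by
      rw [Nat.add_comm, Nat.add_mul_mod_self_right, Nat.mod_eq_of_lt hi]
    have d1 : (g * Wd3 Θ + i) / Wd3 Θ = g := by
      rw [Nat.add_comm, Nat.add_mul_div_right _ _ hW, Nat.div_eq_of_lt hi, Nat.zero_add]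
    have m2 : g % Θ.length = τ := by
      rw [hg, Nat.add_comm, Nat.add_mul_mod_self_right, Nat.mod_eq_of_lt hτ]
    have d2 : g / Θ.length = t * (T x + 1) + p := by
      rw [hg, Nat.add_comm, Nat.add_mul_div_right _ _ (by omega), Nat.div_eq_of_lt hτ,
        Nat.zero_add]
    have m3 : (t * (T x + 1) + p) % (T x + 1) = p := by
      rw [Nat.add_comm, Nat.add_mul_mod_self_right, Nat.mod_eq_of_lt (by omega)]
    have d3 : (t * (T x + 1) + p) / (T x + 1) = t := by
      rw [Nat.add_comm, Nat.add_mul_div_right _ _ (by omega), Nat.div_eq_of_lt (by omega),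
        Nat.zero_add]
    obtain ⟨l, hl, hs⟩ := ha (g * Wd3 Θ + i) (by omega)
    have hne : g * Wd3 Θ + i ≠ nG Θ T x := by omega
    have hl' : l = 0 ∨ l = 1 ∨ l = 2 := by omega
    rcases hl' with rfl | rfl | rfl
    · left
      unfold lit3 at hs
      rw [if_neg hne, if_pos rfl, m1] at hs
      by_cases h0 : i = 0
      · rw [if_pos h0] at hs
        simp [lsat, a0] at hs
      · rw [if_neg h0] at hs
        have e1 : 2 * (2 * (g * Wd3 Θ + i) + 2) / 2 = 2 * (g * Wd3 Θ + i) + 2 := by omega
        have e2 : 2 * (2 * (g * Wd3 Θ + i) + 2) % 2 = 0 := by omega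
        simp only [lsat, e1, e2, zero_ne_one, decide_false] at hs
        exact ⟨h0, hs⟩
    · right; left
      unfold lit3 at hs
      rw [if_neg hne, if_neg one_ne_zero, if_pos rfl, m1, d1, m2, d2, m3, d3, if_pos hτ,
        if_pos hi] at hs
      exact hs
    · right; right
      unfold lit3 at hs
      rw [if_neg hne, if_neg (by omega), if_neg (by omega), m1] at hs
      by_cases h0 : i + 1 = Wd3 Θ
      · rw [if_pos h0] at hs
        simp [lsat, a0] at hs
      · rw [if_neg h0] at hs
        have e1 : (2 * (2 * (g * Wd3 Θ + i + 1) + 2) + 1) / 2 =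
          2 * (g * Wd3 Θ + (i + 1)) + 2 := by omega
        have e2 : (2 * (2 * (g * Wd3 Θ + i + 1) + 2) + 1) % 2 = 1 := by omega
        simp only [lsat, e1, e2, decide_true] at hs
        exact ⟨h0, hs⟩

end conv

/-- **3-SAT is NP-hard**, in computable form: every language `L` in `NP` is given by functions
`nv` (number of variables), `nc` (number of clauses) and `lit` (`lit x j l` is the `l`-th literal
of the `j`-th clause) computable in polynomial time. The literal `n` is the variable `n / 2` if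
`n` is odd and the negation of the variable `n / 2` if `n` is even. -/
theorem np_sat3 (L : List Bool → Bool) (hL : L ∈ N68a2faeb.NP) :
    ∃ (nv nc : List Bool → ℕ) (lit : List Bool → ℕ → ℕ → ℕ),
      Cp (fun x _ => nv x) ∧ Cp (fun x _ => nc x) ∧ Cp (fun x v => lit x (v 0) (v 1)) ∧
      (∀ x, 0 < nc x ∧ 0 < nv x ∧ ∀ j < nc x, ∀ l < 3, lit x j l < 2 * nv x) ∧
      ∀ x, L x = true ↔ ∃ a : ℕ → Bool, ∀ j < nc x, ∃ l < 3, lsat a (lit x j l) := by
  obtain ⟨T, Θ, h⟩ := exists_templates L hL
  have hT : Cp (fun x _ => T.eval x.length) := Cp.poly T Cp.len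
  have hlit := cp_lit3 Θ hT
  have hnc : Cp (fun x _ => nG Θ (fun x => T.eval x.length) x + 1) :=
    (((hT.mul hT.succ).mulC _).mulC _).succ
  refine ⟨fun x => 1 + ∑ j ∈ Finset.range (nG Θ (fun x => T.eval x.length) x + 1),
    ∑ l ∈ Finset.range 3, lit3 Θ (fun x => T.eval x.length) x j l, _, _, ?_, hnc, hlit, ?_, ?_⟩
  · refine (Cp.const 1).add (Cp.sum' hnc (Cp.sum' (Cp.const 3) ?_))
    exact hlit.comp2 (g := fun x j l => lit3 Θ (fun x => T.eval x.length) x j l)
      (Cp.var 1) (Cp.var 0)
  · intro x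
    refine ⟨Nat.succ_pos _, Nat.add_pos_left Nat.one_pos _, fun j hj l hl => ?_⟩
    have h1 : lit3 Θ (fun x => T.eval x.length) x j l ≤
        ∑ l ∈ Finset.range 3, lit3 Θ (fun x => T.eval x.length) x j l :=
      Finset.single_le_sum (f := fun l => lit3 Θ (fun x => T.eval x.length) x j l)
        (fun _ _ => Nat.zero_le _) (Finset.mem_range.2 hl)
    have h2 : ∑ l ∈ Finset.range 3, lit3 Θ (fun x => T.eval x.length) x j l ≤
        ∑ j ∈ Finset.range (nG Θ (fun x => T.eval x.length) x + 1),
          ∑ l ∈ Finset.range 3, lit3 Θ (fun x => T.eval x.length) x j l :=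
      Finset.single_le_sum
        (f := fun j => ∑ l ∈ Finset.range 3, lit3 Θ (fun x => T.eval x.length) x j l)
        (fun _ _ => Nat.zero_le _) (Finset.mem_range.2 hj)
    have h3 := h1.trans h2
    beta_reduce
    omega
  · intro x
    rw [h x]
    exact sat_iff_lit3 (T := fun x => T.eval x.length) Θ x

end Pool.Agent.H54.PT
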