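import Pool.Agent.H54.PT.Enc
import Pool.Agent.helper62.CookLevin

/-!
# Runs of rule machines as satisfying assignments

Every language in `NP` is described by finitely many clause templates, see `exists_templates`.
-/

set_option autoImplicit false
set_option linter.unusedSimpArgs false
set_option linter.unusedVariables false

namespace Pool.Agent.H54.PT

open Pool.Agent.helper62 Function

/-! ### Runs as sequences -/

section seq

variable {Q K A : Type} [DecidableEq K]

lemma run_to_seq {L : List (List (Rule Q K A))} {q q' : Q} {S S' : K → List A}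
    (h : Run L q S q' S') : ∃ (ρ : ℕ → Rule Q K A) (P : ℕ → Q) (σ : ℕ → K → List A),
      P 0 = q ∧ σ 0 = S ∧ P L.length = q' ∧ σ L.length = S' ∧
      ∀ t (ht : t < L.length), ρ t ∈ L[t] ∧ (ρ t).src = P t ∧ (ρ t).dst = P (t + 1) ∧
        (ρ t).op.Rel (σ t) (σ (t + 1)) := by
  induction h with
  | nil q S =>
    exact ⟨fun _ => ⟨q, .nop, q⟩, fun _ => q, fun _ => S, rfl, rfl, rfl, rfl, fun t ht => by
      simp at ht⟩
  | @cons R L q S S1 q'' S'' ρ0 hρ hs hr h ih =>
    obtain ⟨ρ, P, σ, h1, h2, h3, h4, h5⟩ := ih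
    refine ⟨fun t => if t = 0 then ρ0 else ρ (t - 1), fun t => if t = 0 then q else P (t - 1),
      fun t => if t = 0 then S else σ (t - 1), rfl, rfl, ?_, ?_, ?_⟩
    · simp [h3]
    · simp [h4]
    · intro t ht
      cases t with
      | zero =>
        simp only [if_true, List.getElem_cons_zero]
        refine ⟨hρ, hs, ?_, ?_⟩
        · simp [h1]
        · simp [h2, hr]
      | succ t =>
        have ht' : t < L.length := by simpa using ht
        obtain ⟨g1, g2, g3, g4⟩ := h5 t ht'
        simp only [List.getElem_cons_succ]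
        refine ⟨by simpa using g1, by simpa using g2, ?_, ?_⟩
        · simpa using g3
        · simpa using g4

lemma run_of_seq : ∀ (L : List (List (Rule Q K A))) (ρ : ℕ → Rule Q K A) (P : ℕ → Q)
    (σ : ℕ → K → List A), (∀ t (ht : t < L.length), ρ t ∈ L[t] ∧ (ρ t).src = P t ∧
      (ρ t).dst = P (t + 1) ∧ (ρ t).op.Rel (σ t) (σ (t + 1))) →
    Run L (P 0) (σ 0) (P L.length) (σ L.length) := by
  intro L
  induction L with
  | nil => intro ρ P σ h; exact Run.nil _ _
  | cons R L ih =>
    intro ρ P σ h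
    have h0 := h 0 (by simp)
    refine Run.cons (ρ 0) h0.1 h0.2.1 h0.2.2.2 ?_
    rw [h0.2.2.1]
    exact ih (fun t => ρ (t + 1)) (fun t => P (t + 1)) (fun t => σ (t + 1)) (fun t ht => by
      have := h (t + 1) (by simpa using ht)
      simpa using this)

/-- the effect of an operation -/
def eff : Op K A → (K → List A) → (K → List A)
  | .nop, S => S
  | .push k a, S => Function.update S k (a :: S k)
  | .pop k _, S => Function.update S k (S k).tail
  | .peek _ _, S => S

/-- the condition of an operation -/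
def grd : Op K A → (K → List A) → Prop
  | .nop, _ => True
  | .push _ _, _ => True
  | .pop k a, S => (S k).head? = some a
  | .peek k a, S => (S k).head? = a

lemma rel_iff (op : Op K A) (S S' : K → List A) : op.Rel S S' ↔ grd op S ∧ S' = eff op S := by
  cases op <;> simp [Op.Rel, eff, grd]

end seq

/-! ### Templates -/

/-- A literal template. -/
structure TL where
  sg : Bool
  dt : ℕ
  pk : ℕ
  s : ℕ

def posv : ℕ → ℕ → ℕ
  | 0, _ => 0
  | 1, p => p
  | _ + 2, p => p + 1

/-- The number of the variable of slot `s` at time `t`, position `p`. -/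
def vn (t p s : ℕ) : ℕ := Nat.pair t (Nat.pair p s)

def TL.var (l : TL) (t p : ℕ) : ℕ := vn (t + l.dt) (posv l.pk p) l.s

def TL.holds (a : ℕ → Bool) (l : TL) (t p : ℕ) : Prop := a (l.var t p) = l.sg

/-- A clause template. -/
structure CT where
  cond : List Bool → ℕ → ℕ → Prop
  hc : Cq (fun x v => cond x (v 0) (v 1))
  lits : List TL

def CT.holds (a : ℕ → Bool) (x : List Bool) (t p : ℕ) (τ : CT) : Prop :=
  τ.cond x t p → ∃ l ∈ τ.lits, l.holds a t p

/-- The assignment `a` satisfies all instances of the templates. -/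
def Sat (T : ℕ) (Θ : List CT) (x : List Bool) (a : ℕ → Bool) : Prop :=
  ∀ t < T, ∀ p ≤ T, ∀ τ ∈ Θ, τ.holds a x t p

/-! ### Random access to the levels -/

/-- the kind of level `t` -/
def ty (q : ℕ) (x : List Bool) (t : ℕ) : ℕ :=
  if t < 3 * q then t % 3
  else if t = 3 * q then 3
  else if t - (3 * q + 1) < 6 * x.length then
    (if (t - (3 * q + 1)) % 6 = 0 then 4
     else if (t - (3 * q + 1)) % 6 = 2 then
      (if x.getD (x.length - 1 - (t - (3 * q + 1)) / 6) false = true then 5 else 4)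
     else 5)
  else if t - (3 * q + 1) = 6 * x.length then 6
  else 7

lemma getElem?_replicate3 {α : Type*} (a b c : α) : ∀ (q t : ℕ), t < 3 * q →
    ((List.replicate q [a, b, c]).flatten)[t]? =
      some (if t % 3 = 0 then a else if t % 3 = 1 then b else c) := by
  intro q
  induction q with
  | zero => intro t ht; omega
  | succ q ih =>
    intro t ht
    rw [List.replicate_succ, List.flatten_cons]
    match t with
    | 0 => rfl
    | 1 => rfl
    | 2 => rfl
    | t + 3 =>
      have := ih t (by omega)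
      have e : (t + 3) % 3 = t % 3 := by omega
      rw [e, ← this]
      rfl

lemma getElem?_block6 {α : Type*} (c : Bool → α) : ∀ (y : List Bool) (u : ℕ),
    u < 6 * y.length →
    (y.flatMap (fun e => [c false, c true, c e, c true, c true, c true]))[u]? =
      some (if u % 6 = 0 then c false else if u % 6 = 2 then c (y.getD (u / 6) false)
        else c true) := by
  intro y
  induction y with
  | nil => intro u hu; simp at hu
  | cons e y ih =>
    intro u hu
    rw [List.flatMap_cons]
    match u with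
    | 0 => rfl
    | 1 => rfl
    | 2 => rfl
    | 3 => rfl
    | 4 => rfl
    | 5 => rfl
    | u + 6 =>
      have := ih u (by simp only [List.length_cons] at hu; omega)
      have e1 : (u + 6) % 6 = u % 6 := by omega
      have e2 : (u + 6) / 6 = u / 6 + 1 := by omega
      rw [e1, e2, List.getD_cons_succ, ← this]
      rfl

lemma getD_reverse (x : List Bool) (j : ℕ) (hj : j < x.length) :
    x.reverse.getD j false = x.getD (x.length - 1 - j) false := by
  rw [List.getD_eq_getElem?_getD, List.getD_eq_getElem?_getD, List.getElem?_reverse hj]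

lemma getElem?_shape {α : Type*} (f : ℕ → α) (q : ℕ) (x : List Bool) (N t : ℕ)
    (ht : t < 3 * q + 6 * x.length + 2 + N) :
    (shape (f 0) (f 1) (f 2) (f 3) (fun e => if e then f 5 else f 4) (f 6) (f 7) q x N)[t]? =
      some (f (ty q x t)) := by
  have h6 : ∀ y : List Bool, (y.flatMap (fun e => [(fun e => if e then f 5 else f 4) false,
      (fun e => if e then f 5 else f 4) true, (fun e => if e then f 5 else f 4) e,
      (fun e => if e then f 5 else f 4) true, (fun e => if e then f 5 else f 4) true,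
      (fun e => if e then f 5 else f 4) true])).length = 6 * y.length := by
    intro y
    induction y with
    | nil => rfl
    | cons b y ih => simp at ih ⊢; omega
  have h3 : ((List.replicate q [f 0, f 1, f 2]).flatten).length = 3 * q := by
    simp; omega
  unfold shape ty
  by_cases c1 : t < 3 * q
  · rw [if_pos c1, List.getElem?_append_left (by omega), getElem?_replicate3 _ _ _ _ _ c1]
    have : t % 3 = 0 ∨ t % 3 = 1 ∨ t % 3 = 2 := by omega
    rcases this with h | h | h <;> simp [h]
  rw [if_neg c1, List.getElem?_append_right (by omega), h3]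
  by_cases c2 : t = 3 * q
  · rw [if_pos c2, c2, Nat.sub_self]
    rfl
  rw [if_neg c2]
  obtain ⟨u, rfl⟩ : ∃ u, t = 3 * q + 1 + u := ⟨t - (3 * q + 1), by omega⟩
  have e1 : 3 * q + 1 + u - 3 * q = u + 1 := by omega
  have e2 : 3 * q + 1 + u - (3 * q + 1) = u := by omega
  rw [e1, e2, List.getElem?_cons_succ]
  by_cases c3 : u < 6 * x.length
  · rw [if_pos c3, List.getElem?_append_left (by rw [h6, List.length_reverse]; exact c3),
      getElem?_block6 (fun e => if e then f 5 else f 4) _ _ (by simpa using c3),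
      getD_reverse _ _ (by omega)]
    by_cases c4 : u % 6 = 0
    · simp [c4]
    · by_cases c5 : u % 6 = 2
      · simp only [c5, if_true, if_false]
        cases x.getD (x.length - 1 - u / 6) false <;> simp
      · simp [c4, c5]
  · rw [if_neg c3, List.getElem?_append_right (by rw [h6, List.length_reverse]; omega), h6,
      List.length_reverse]
    by_cases c4 : u = 6 * x.length
    · rw [if_pos c4, c4, Nat.sub_self]
      rfl
    · rw [if_neg c4]
      obtain ⟨w, rfl⟩ : ∃ w, u = 6 * x.length + 1 + w := ⟨u - (6 * x.length + 1), by omega⟩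
      have e3 : 6 * x.length + 1 + w - 6 * x.length = w + 1 := by omega
      rw [e3, List.getElem?_cons_succ, List.getElem?_replicate_of_lt (by omega)]

lemma cp_ty (q : Polynomial ℕ) : Cp (fun x v => ty (q.eval x.length) x (v 0)) := by
  have hq : Cp (fun x _ => 3 * q.eval x.length) := (Cp.const 3).mul (Cp.poly q Cp.len)
  have hl : Cp (fun x _ => 6 * x.length) := (Cp.const 6).mul Cp.len
  have hu : Cp (fun x v => v 0 - (3 * q.eval x.length + 1)) := (Cp.var 0).sub hq.succ
  exact Cp.ite (Cq.lt (Cp.var 0) hq) ((Cp.var 0).mod (Cp.const 3))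
    (Cp.ite (Cq.eq (Cp.var 0) hq) (Cp.const 3)
    (Cp.ite (Cq.lt hu hl)
      (Cp.ite (Cq.eq (hu.mod (Cp.const 6)) (Cp.const 0)) (Cp.const 4)
      (Cp.ite (Cq.eq (hu.mod (Cp.const 6)) (Cp.const 2))
        (Cp.ite (Cq.bit (((Cp.len).sub (Cp.const 1)).sub (hu.div (Cp.const 6)))) (Cp.const 5)
          (Cp.const 4)) (Cp.const 5)))
      (Cp.ite (Cq.eq hu hl) (Cp.const 6) (Cp.const 7))))

/-! ### The templates of a rule machine -/

section machine

variable {Q K A : Type} [DecidableEq K]

/-- slots -/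
inductive Sl (Q K A : Type) where
  | r (ρ : Rule Q K A)
  | c (k : K) (o : Option A)

def opSyms : Op K A → List (Option A)
  | .nop => []
  | .push _ a => [some a]
  | .pop _ a => [some a]
  | .peek _ o => [o]

def inP : Op K A → K → ℕ
  | .pop k' _, k => if k' = k then 2 else 1
  | _, _ => 1

def outP : Op K A → K → ℕ
  | .push k' _, k => if k' = k then 2 else 1
  | _, _ => 1

variable (T : List Bool → ℕ) (hT : Cp (fun x _ => T x)) (tyf : List Bool → ℕ → ℕ)
  (hty : Cp (fun x v => tyf x (v 0))) (sn : Sl Q K A → ℕ)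
  (lv : ℕ → List (Rule Q K A)) (AR : List (Rule Q K A)) (ks : List K) (os : List (Option A))
  (q0 qa : Q)

def ctLvl (hty : Cp (fun x v => tyf x (v 0))) (i : ℕ) : CT where
  cond := fun x t p => p = 0 ∧ tyf x t = i
  hc := (Cq.eq (Cp.var 1) (Cp.const 0)).and (Cq.eq hty (Cp.const i))
  lits := (lv i).map (fun ρ => ⟨true, 0, 0, sn (.r ρ)⟩)

def ctSrc (ρ : Rule Q K A) : CT where
  cond := fun _ t p => p = 0 ∧ t = 0
  hc := (Cq.eq (Cp.var 1) (Cp.const 0)).and (Cq.eq (Cp.var 0) (Cp.const 0))
  lits := [⟨false, 0, 0, sn (.r ρ)⟩]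

def ctDst (hT : Cp (fun x _ => T x)) (ρ : Rule Q K A) : CT where
  cond := fun x t p => p = 0 ∧ t + 1 = T x
  hc := (Cq.eq (Cp.var 1) (Cp.const 0)).and (Cq.eq (Cp.var 0).succ hT)
  lits := [⟨false, 0, 0, sn (.r ρ)⟩]

def ctNext (hT : Cp (fun x _ => T x)) (ρ ρ' : Rule Q K A) : CT where
  cond := fun x t p => p = 0 ∧ t + 1 < T x
  hc := (Cq.eq (Cp.var 1) (Cp.const 0)).and (Cq.lt (Cp.var 0).succ hT)
  lits := [⟨false, 0, 0, sn (.r ρ)⟩, ⟨false, 1, 0, sn (.r ρ')⟩]

def ctGuard (ρ : Rule Q K A) (k : K) (o : Option A) : CT where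
  cond := fun _ _ p => p = 0
  hc := Cq.eq (Cp.var 1) (Cp.const 0)
  lits := [⟨false, 0, 0, sn (.r ρ)⟩, ⟨true, 0, 0, sn (.c k o)⟩]

def ctPush (ρ : Rule Q K A) (k : K) (a : A) : CT where
  cond := fun _ _ p => p = 0
  hc := Cq.eq (Cp.var 1) (Cp.const 0)
  lits := [⟨false, 0, 0, sn (.r ρ)⟩, ⟨true, 1, 0, sn (.c k (some a))⟩]

def ctShift (ρ : Rule Q K A) (k : K) (o : Option A) : CT where
  cond := fun _ _ _ => True
  hc := Cq.const True
  lits := [⟨false, 0, 0, sn (.r ρ)⟩, ⟨false, 0, inP ρ.op k, sn (.c k o)⟩,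
    ⟨true, 1, outP ρ.op k, sn (.c k o)⟩]

def ctInit (k : K) : CT where
  cond := fun _ t _ => t = 0
  hc := Cq.eq (Cp.var 0) (Cp.const 0)
  lits := [⟨true, 0, 1, sn (.c k none)⟩]

def ctUniq (k : K) (o o' : Option A) : CT where
  cond := fun _ _ p => p = 0
  hc := Cq.eq (Cp.var 1) (Cp.const 0)
  lits := [⟨false, 0, 0, sn (.c k o)⟩, ⟨false, 0, 0, sn (.c k o')⟩]

def guardT (ρ : Rule Q K A) : List CT :=
  match ρ.op with
  | .pop k a => [ctGuard sn ρ k (some a)]
  | .peek k o => [ctGuard sn ρ k o]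
  | _ => []

def pushT (ρ : Rule Q K A) : List CT :=
  match ρ.op with
  | .push k a => [ctPush sn ρ k a]
  | _ => []

open Classical in
/-- all templates -/
noncomputable def temps : List CT :=
  (List.range 8).map (ctLvl tyf sn lv hty) ++
  (AR.filter (fun ρ => decide (ρ.src ≠ q0))).map (ctSrc sn) ++
  (AR.filter (fun ρ => decide (ρ.dst ≠ qa))).map (ctDst T sn hT) ++
  AR.flatMap (fun ρ => (AR.filter (fun ρ' => decide (ρ.dst ≠ ρ'.src))).map (ctNext T sn hT ρ)) ++
  AR.flatMap (fun ρ => guardT sn ρ) ++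
  AR.flatMap (fun ρ => pushT sn ρ) ++
  AR.flatMap (fun ρ => ks.flatMap (fun k => os.map (ctShift sn ρ k))) ++
  ks.map (ctInit sn) ++
  ks.flatMap (fun k => os.flatMap (fun o =>
    (os.filter (fun o' => decide (o' ≠ o))).map (ctUniq sn k o)))

/-- The meaning of the templates. -/
structure Good (x : List Bool) (R : ℕ → Rule Q K A → Prop) (C : ℕ → ℕ → K → Option A → Prop) :
    Prop where
  lvl : ∀ t < T x, tyf x t < 8 → ∃ ρ ∈ lv (tyf x t), R t ρ
  src : ∀ ρ ∈ AR, 0 < T x → R 0 ρ → ρ.src = q0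
  dst : ∀ ρ ∈ AR, ∀ t < T x, t + 1 = T x → R t ρ → ρ.dst = qa
  next : ∀ ρ ∈ AR, ∀ ρ' ∈ AR, ∀ t < T x, t + 1 < T x → R t ρ → R (t + 1) ρ' → ρ.dst = ρ'.src
  pop : ∀ ρ ∈ AR, ∀ t < T x, R t ρ → ∀ k a, ρ.op = .pop k a → C t 0 k (some a)
  peek : ∀ ρ ∈ AR, ∀ t < T x, R t ρ → ∀ k o, ρ.op = .peek k o → C t 0 k o
  push : ∀ ρ ∈ AR, ∀ t < T x, R t ρ → ∀ k a, ρ.op = .push k a → C (t + 1) 0 k (some a)
  shift : ∀ ρ ∈ AR, ∀ t < T x, ∀ p ≤ T x, ∀ k ∈ ks, ∀ o ∈ os, R t ρ →
    C t (posv (inP ρ.op k) p) k o → C (t + 1) (posv (outP ρ.op k) p) k o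
  init : ∀ p ≤ T x, 0 < T x → ∀ k ∈ ks, C 0 p k none
  uniq : ∀ t < T x, ∀ k ∈ ks, ∀ o ∈ os, ∀ o' ∈ os, C t 0 k o → C t 0 k o' → o = o'

lemma sat_iff_good (x : List Bool) (a : ℕ → Bool) :
    Sat (T x) (temps T hT tyf hty sn lv AR ks os q0 qa) x a ↔
      Good T tyf lv AR ks os q0 qa x (fun t ρ => a (vn t 0 (sn (.r ρ))) = true)
        (fun t p k o => a (vn t p (sn (.c k o))) = true) := by
  classical
  constructor
  · intro h
    have key : ∀ t < T x, ∀ p ≤ T x, ∀ τ ∈ temps T hT tyf hty sn lv AR ks os q0 qa,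
      τ.holds a x t p := h
    simp only [temps, List.mem_append, or_imp, forall_and, List.mem_map, List.mem_flatMap,
      List.mem_filter, decide_eq_true_eq] at key
    obtain ⟨⟨⟨⟨⟨⟨⟨⟨k1, k2⟩, k3⟩, k4⟩, k5⟩, k6⟩, k7⟩, k8⟩, k9⟩ := key
    refine ⟨?_, ?_, ?_, ?_, ?_, ?_, ?_, ?_, ?_, ?_⟩
    · intro t ht h8
      have := k1 t ht 0 (Nat.zero_le _) _ ⟨tyf x t, List.mem_range.2 h8, rfl⟩ ⟨rfl, rfl⟩
      obtain ⟨l, hl, hh⟩ := this
      simp only [ctLvl, List.mem_map] at hl
      obtain ⟨ρ, hρ, rfl⟩ := hl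
      exact ⟨ρ, hρ, hh⟩
    · intro ρ hρ h0 hR
      by_contra hne
      obtain ⟨l, hl, hh⟩ := k2 0 h0 0 (Nat.zero_le _) _ ⟨ρ, ⟨hρ, hne⟩, rfl⟩ ⟨rfl, rfl⟩
      simp only [ctSrc, List.mem_singleton] at hl
      subst hl
      simp only [TL.holds, TL.var, posv, Nat.add_zero] at hh
      rw [hR] at hh
      cases hh
    · intro ρ hρ t ht h0 hR
      by_contra hne
      obtain ⟨l, hl, hh⟩ := k3 t ht 0 (Nat.zero_le _) _ ⟨ρ, ⟨hρ, hne⟩, rfl⟩ ⟨rfl, h0⟩
      simp only [ctDst, List.mem_singleton] at hl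
      subst hl
      simp only [TL.holds, TL.var, posv, Nat.add_zero] at hh
      rw [hR] at hh
      cases hh
    · intro ρ hρ ρ' hρ' t ht h0 hR hR'
      by_contra hne
      obtain ⟨l, hl, hh⟩ := k4 t ht 0 (Nat.zero_le _) _ ⟨ρ, hρ, ρ', ⟨hρ', hne⟩, rfl⟩ ⟨rfl, h0⟩
      simp only [ctNext, List.mem_cons, List.not_mem_nil, or_false] at hl
      rcases hl with rfl | rfl
      · simp only [TL.holds, TL.var, posv, Nat.add_zero] at hh
        rw [hR] at hh
        cases hh
      · simp only [TL.holds, TL.var, posv] at hh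
        rw [hR'] at hh
        cases hh
    · intro ρ hρ t ht hR k a' hop
      obtain ⟨l, hl, hh⟩ := k5 t ht 0 (Nat.zero_le _) (ctGuard sn ρ k (some a'))
        ⟨ρ, hρ, by simp [guardT, hop]⟩ rfl
      simp only [ctGuard, List.mem_cons, List.not_mem_nil, or_false] at hl
      rcases hl with rfl | rfl
      · simp only [TL.holds, TL.var, posv, Nat.add_zero] at hh
        rw [hR] at hh
        cases hh
      · exact hh
    · intro ρ hρ t ht hR k o hop
      obtain ⟨l, hl, hh⟩ := k5 t ht 0 (Nat.zero_le _) (ctGuard sn ρ k o)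
        ⟨ρ, hρ, by simp [guardT, hop]⟩ rfl
      simp only [ctGuard, List.mem_cons, List.not_mem_nil, or_false] at hl
      rcases hl with rfl | rfl
      · simp only [TL.holds, TL.var, posv, Nat.add_zero] at hh
        rw [hR] at hh
        cases hh
      · exact hh
    · intro ρ hρ t ht hR k a' hop
      obtain ⟨l, hl, hh⟩ := k6 t ht 0 (Nat.zero_le _) (ctPush sn ρ k a')
        ⟨ρ, hρ, by simp [pushT, hop]⟩ rfl
      simp only [ctPush, List.mem_cons, List.not_mem_nil, or_false] at hl
      rcases hl with rfl | rfl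
      · simp only [TL.holds, TL.var, posv, Nat.add_zero] at hh
        rw [hR] at hh
        cases hh
      · exact hh
    · intro ρ hρ t ht p hp k hk o ho hR hC
      obtain ⟨l, hl, hh⟩ := k7 t ht p hp (ctShift sn ρ k o) ⟨ρ, hρ, k, hk, o, ho, rfl⟩ trivial
      simp only [ctShift, List.mem_cons, List.not_mem_nil, or_false] at hl
      rcases hl with rfl | rfl | rfl
      · simp only [TL.holds, TL.var, posv, Nat.add_zero] at hh
        rw [hR] at hh
        cases hh
      · simp only [TL.holds, TL.var, Nat.add_zero] at hh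
        rw [hC] at hh
        cases hh
      · exact hh
    · intro p hp h0 k hk
      obtain ⟨l, hl, hh⟩ := k8 0 h0 p hp (ctInit sn k) ⟨k, hk, rfl⟩ rfl
      simp only [ctInit, List.mem_cons, List.not_mem_nil, or_false] at hl
      subst hl
      exact hh
    · intro t ht k hk o ho o' ho' hC hC'
      by_contra hne
      obtain ⟨l, hl, hh⟩ := k9 t ht 0 (Nat.zero_le _) (ctUniq sn k o o')
        ⟨k, hk, o, ho, o', ⟨ho', fun h => hne h.symm⟩, rfl⟩ rfl
      simp only [ctUniq, List.mem_cons, List.not_mem_nil, or_false] at hl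
      rcases hl with rfl | rfl
      · simp only [TL.holds, TL.var, posv, Nat.add_zero] at hh
        rw [hC] at hh
        cases hh
      · simp only [TL.holds, TL.var, posv, Nat.add_zero] at hh
        rw [hC'] at hh
        cases hh
  · intro G t ht p hp τ hτ hcond
    simp only [temps, List.mem_append, List.mem_map, List.mem_flatMap,
      List.mem_filter, decide_eq_true_eq] at hτ
    have neg : ∀ (n : ℕ), ¬ (a n = true) → a n = false := fun n h => by simpa using h
    rcases hτ with (((((((⟨i, hi, rfl⟩ | ⟨ρ, ⟨hρ, hne⟩, rfl⟩) | ⟨ρ, ⟨hρ, hne⟩, rfl⟩) |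
      ⟨ρ, hρ, ρ', ⟨hρ', hne⟩, rfl⟩) | ⟨ρ, hρ, hτ⟩) | ⟨ρ, hρ, hτ⟩) |
      ⟨ρ, hρ, k, hk, o, ho, rfl⟩) | ⟨k, hk, rfl⟩) | ⟨k, hk, o, ho, o', ⟨ho', hne⟩, rfl⟩
    · obtain ⟨rfl, h2⟩ := hcond
      obtain ⟨ρ, hρ, hR⟩ := G.lvl t ht (by rw [h2]; exact List.mem_range.1 hi)
      rw [h2] at hρ
      exact ⟨⟨true, 0, 0, sn (.r ρ)⟩, List.mem_map.2 ⟨ρ, hρ, rfl⟩, hR⟩
    · obtain ⟨rfl, rfl⟩ := hcond
      exact ⟨_, List.mem_singleton.2 rfl, neg _ fun h => hne (G.src ρ hρ ht h)⟩
    · obtain ⟨rfl, h2⟩ := hcond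
      exact ⟨_, List.mem_singleton.2 rfl, neg _ fun h => hne (G.dst ρ hρ t ht h2 h)⟩
    · obtain ⟨rfl, h2⟩ := hcond
      by_cases h : a (vn t 0 (sn (.r ρ))) = true
      · refine ⟨⟨false, 1, 0, sn (.r ρ')⟩, by simp [ctNext], neg _ fun h' => hne ?_⟩
        exact G.next ρ hρ ρ' hρ' t ht h2 h h'
      · exact ⟨⟨false, 0, 0, sn (.r ρ)⟩, by simp [ctNext], neg _ h⟩
    · unfold guardT at hτ
      split at hτ
      · rename_i k a' hop
        rw [List.mem_singleton] at hτ
        subst hτ
        by_cases h : a (vn t 0 (sn (.r ρ))) = true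
        · exact ⟨⟨true, 0, 0, sn (.c k (some a'))⟩, by simp [ctGuard], G.pop ρ hρ t ht h k a' hop⟩
        · exact ⟨⟨false, 0, 0, sn (.r ρ)⟩, by simp [ctGuard], neg _ h⟩
      · rename_i k o hop
        rw [List.mem_singleton] at hτ
        subst hτ
        by_cases h : a (vn t 0 (sn (.r ρ))) = true
        · exact ⟨⟨true, 0, 0, sn (.c k o)⟩, by simp [ctGuard], G.peek ρ hρ t ht h k o hop⟩
        · exact ⟨⟨false, 0, 0, sn (.r ρ)⟩, by simp [ctGuard], neg _ h⟩
      · simp at hτ
    · unfold pushT at hτ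
      split at hτ
      · rename_i k a' hop
        rw [List.mem_singleton] at hτ
        subst hτ
        by_cases h : a (vn t 0 (sn (.r ρ))) = true
        · exact ⟨⟨true, 1, 0, sn (.c k (some a'))⟩, by simp [ctPush], G.push ρ hρ t ht h k a' hop⟩
        · exact ⟨⟨false, 0, 0, sn (.r ρ)⟩, by simp [ctPush], neg _ h⟩
      · simp at hτ
    · by_cases h : a (vn t 0 (sn (.r ρ))) = true
      · by_cases h' : a (vn t (posv (inP ρ.op k) p) (sn (.c k o))) = true
        · exact ⟨⟨true, 1, outP ρ.op k, sn (.c k o)⟩, by simp [ctShift],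
            G.shift ρ hρ t ht p hp k hk o ho h h'⟩
        · exact ⟨⟨false, 0, inP ρ.op k, sn (.c k o)⟩, by simp [ctShift], neg _ h'⟩
      · exact ⟨⟨false, 0, 0, sn (.r ρ)⟩, by simp [ctShift], neg _ h⟩
    · have h0 : t = 0 := hcond
      subst h0
      exact ⟨_, List.mem_singleton.2 rfl, G.init p hp ht k hk⟩
    · have h0 : p = 0 := hcond
      subst h0
      by_cases h : a (vn t 0 (sn (.c k o))) = true
      · refine ⟨⟨false, 0, 0, sn (.c k o')⟩, by simp [ctUniq], neg _ fun h' => hne ?_⟩
        exact (G.uniq t ht k hk o ho o' ho' h h').symm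
      · exact ⟨⟨false, 0, 0, sn (.c k o)⟩, by simp [ctUniq], neg _ h⟩

/-! ### Correctness -/

variable {T} {tyf} {lv} {AR} {ks} {os} {q0} {qa}

/-- Hypotheses relating the templates to a list of levels. -/
structure Hyp (T : List Bool → ℕ) (tyf : List Bool → ℕ → ℕ) (lv : ℕ → List (Rule Q K A))
    (AR : List (Rule Q K A)) (ks : List K) (os : List (Option A)) (x : List Bool)
    (L : List (List (Rule Q K A))) : Prop where
  len : L.length = T x
  get : ∀ t (ht : t < L.length), L[t] = lv (tyf x t)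
  ty8 : ∀ t, tyf x t < 8
  mem : ∀ i, ∀ ρ ∈ lv i, ρ ∈ AR
  ks : ∀ k, k ∈ ks
  none : none ∈ os
  sym : ∀ ρ ∈ AR, ∀ o ∈ opSyms ρ.op, o ∈ os
  pos : 0 < T x

lemma run_of_good {x : List Bool} {R : ℕ → Rule Q K A → Prop} {C : ℕ → ℕ → K → Option A → Prop}
    {L : List (List (Rule Q K A))} (H : Hyp T tyf lv AR ks os x L)
    (G : Good T tyf lv AR ks os q0 qa x R C) : ∃ Sa, Run L q0 (fun _ => []) qa Sa := by
  have hch : ∀ t, ∃ ρ, t < T x → ρ ∈ lv (tyf x t) ∧ R t ρ := by
    intro t
    by_cases ht : t < T x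
    · obtain ⟨ρ, h1, h2⟩ := G.lvl t ht (H.ty8 t)
      exact ⟨ρ, fun _ => ⟨h1, h2⟩⟩
    · exact ⟨⟨q0, .nop, q0⟩, fun h => absurd h ht⟩
  choose ρ hρ using hch
  let σ : ℕ → K → List A := fun t => Nat.rec (fun _ => []) (fun t S => eff (ρ t).op S) t
  have hσ : ∀ t, σ (t + 1) = eff (ρ t).op (σ t) := fun t => rfl
  let P : ℕ → Q := fun t => if t < T x then (ρ t).src else qa
  have hAR : ∀ t < T x, ρ t ∈ AR := fun t ht => H.mem _ _ (hρ t ht).1
  have hR : ∀ t < T x, R t (ρ t) := fun t ht => (hρ t ht).2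
  have inv : ∀ t ≤ T x, ∀ p, p + t ≤ T x → ∀ k, C t p k ((σ t k)[p]?) ∧ (σ t k)[p]? ∈ os := by
    intro t
    induction t with
    | zero =>
      intro _ p hp k
      have : (σ 0 k)[p]? = none := rfl
      rw [this]
      exact ⟨G.init p (by omega) H.pos k (H.ks k), H.none⟩
    | succ t ih =>
      intro ht p hp k
      have ht' : t < T x := by omega
      have IH := ih (by omega)
      rw [hσ]
      have hsh := fun p (hp : p ≤ T x) o (ho : o ∈ os) =>
        G.shift (ρ t) (hAR t ht') t ht' p hp k (H.ks k) o ho (hR t ht')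
      cases hop : (ρ t).op with
      | nop =>
        simp only [eff]
        rw [hop] at hsh
        obtain ⟨h1, h2⟩ := IH p (by omega) k
        exact ⟨hsh p (by omega) _ h2 h1, h2⟩
      | peek k' o =>
        simp only [eff]
        rw [hop] at hsh
        obtain ⟨h1, h2⟩ := IH p (by omega) k
        exact ⟨hsh p (by omega) _ h2 h1, h2⟩
      | push k' a =>
        simp only [eff]
        rw [hop] at hsh
        by_cases hk : k' = k
        · subst hk
          rw [Function.update_self]
          cases p with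
          | zero =>
            exact ⟨G.push (ρ t) (hAR t ht') t ht' (hR t ht') k' a hop,
              H.sym _ (hAR t ht') _ (by rw [hop]; simp [opSyms])⟩
          | succ p =>
            rw [List.getElem?_cons_succ]
            obtain ⟨h1, h2⟩ := IH p (by omega) k'
            have := hsh p (by omega) _ h2
            simp only [inP, outP, if_true, posv] at this
            exact ⟨this h1, h2⟩
        · rw [Function.update_of_ne (Ne.symm hk)]
          obtain ⟨h1, h2⟩ := IH p (by omega) k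
          have := hsh p (by omega) _ h2
          simp only [inP, outP, hk, if_false, posv] at this
          exact ⟨this h1, h2⟩
      | pop k' a =>
        simp only [eff]
        rw [hop] at hsh
        by_cases hk : k' = k
        · subst hk
          rw [Function.update_self]
          have e : (σ t k').tail[p]? = (σ t k')[p + 1]? := by
            cases σ t k' <;> simp
          rw [e]
          obtain ⟨h1, h2⟩ := IH (p + 1) (by omega) k'
          have := hsh p (by omega) _ h2
          simp only [inP, outP, if_true, posv] at this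
          exact ⟨this h1, h2⟩
        · rw [Function.update_of_ne (Ne.symm hk)]
          obtain ⟨h1, h2⟩ := IH p (by omega) k
          have := hsh p (by omega) _ h2
          simp only [inP, outP, hk, if_false, posv] at this
          exact ⟨this h1, h2⟩
  have head : ∀ t < T x, ∀ k, C t 0 k ((σ t k).head?) ∧ (σ t k).head? ∈ os := by
    intro t ht k
    have := inv t (by omega) 0 (by omega) k
    rwa [← List.head?_eq_getElem?] at this
  have hrun := run_of_seq L ρ P σ (fun t ht => by
    rw [H.len] at ht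
    refine ⟨?_, ?_, ?_, ?_⟩
    · rw [H.get]
      exact (hρ t ht).1
    · simp only [P, if_pos ht]
    · simp only [P]
      by_cases h : t + 1 < T x
      · rw [if_pos h]
        exact G.next _ (hAR t ht) _ (hAR (t + 1) h) t ht h (hR t ht) (hR (t + 1) h)
      · rw [if_neg h]
        exact G.dst _ (hAR t ht) t ht (by omega) (hR t ht)
    · rw [rel_iff]
      refine ⟨?_, hσ t⟩
      cases hop : (ρ t).op with
      | nop => trivial
      | push k a => trivial
      | pop k a =>
        have h1 := G.pop _ (hAR t ht) t ht (hR t ht) k a hop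
        obtain ⟨h2, h3⟩ := head t ht k
        exact G.uniq t ht k (H.ks k) _ h3 _
          (H.sym _ (hAR t ht) _ (by rw [hop]; simp [opSyms])) h2 h1
      | peek k o =>
        have h1 := G.peek _ (hAR t ht) t ht (hR t ht) k o hop
        obtain ⟨h2, h3⟩ := head t ht k
        exact G.uniq t ht k (H.ks k) _ h3 _
          (H.sym _ (hAR t ht) _ (by rw [hop]; simp [opSyms])) h2 h1)
  have e0 : P 0 = q0 := by
    simp only [P, if_pos H.pos]
    exact G.src _ (hAR 0 H.pos) H.pos (hR 0 H.pos)
  have e1 : P L.length = qa := by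
    simp [P, H.len]
  rw [e0, e1] at hrun
  exact ⟨_, hrun⟩

lemma good_of_run {x : List Bool} {L : List (List (Rule Q K A))} (H : Hyp T tyf lv AR ks os x L)
    {Sa : K → List A} (h : Run L q0 (fun _ => []) qa Sa) :
    ∃ (ρ : ℕ → Rule Q K A) (σ : ℕ → K → List A),
      ∀ (R : ℕ → Rule Q K A → Prop) (C : ℕ → ℕ → K → Option A → Prop),
        (∀ t, ∀ ρ' ∈ AR, (R t ρ' ↔ ρ t = ρ')) →
        (∀ t p, ∀ k ∈ ks, ∀ o ∈ os, (C t p k o ↔ (σ t k)[p]? = o)) →
        Good T tyf lv AR ks os q0 qa x R C := by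
  obtain ⟨ρ, P, σ, h1, h2, h3, h4, h5⟩ := run_to_seq h
  refine ⟨ρ, σ, fun R C hR hC => ?_⟩
  have h5' : ∀ t < T x, ρ t ∈ lv (tyf x t) ∧ (ρ t).src = P t ∧ (ρ t).dst = P (t + 1) ∧
      (ρ t).op.Rel (σ t) (σ (t + 1)) := by
    intro t ht
    have := h5 t (by rw [H.len]; exact ht)
    rw [H.get] at this
    exact this
  refine ⟨?_, ?_, ?_, ?_, ?_, ?_, ?_, ?_, ?_, ?_⟩
  · intro t ht _
    exact ⟨ρ t, (h5' t ht).1, (hR t _ (H.mem _ _ (h5' t ht).1)).2 rfl⟩
  · intro ρ' hρ' h0 hr
    have := (hR 0 ρ' hρ').1 hr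
    subst this
    rw [(h5' 0 h0).2.1, h1]
  · intro ρ' hρ' t ht h0 hr
    have := (hR t ρ' hρ').1 hr
    subst this
    rw [(h5' t ht).2.2.1, h0, ← H.len, h3]
  · intro ρ' hρ' ρ'' hρ'' t ht h0 hr hr'
    have := (hR t ρ' hρ').1 hr
    subst this
    have := (hR (t + 1) ρ'' hρ'').1 hr'
    subst this
    rw [(h5' t ht).2.2.1, (h5' (t + 1) h0).2.1]
  · intro ρ' hρ' t ht hr k a hop
    have := (hR t ρ' hρ').1 hr
    subst this
    rw [hC _ _ _ (H.ks k) _ (H.sym _ hρ' _ (by rw [hop]; simp [opSyms]))]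
    have hrel := (h5' t ht).2.2.2
    rw [hop] at hrel
    rw [← List.head?_eq_getElem?]
    exact hrel.1
  · intro ρ' hρ' t ht hr k o hop
    have := (hR t ρ' hρ').1 hr
    subst this
    rw [hC _ _ _ (H.ks k) _ (H.sym _ hρ' _ (by rw [hop]; simp [opSyms]))]
    have hrel := (h5' t ht).2.2.2
    rw [hop] at hrel
    rw [← List.head?_eq_getElem?]
    exact hrel.1
  · intro ρ' hρ' t ht hr k a hop
    have := (hR t ρ' hρ').1 hr
    subst this
    rw [hC _ _ _ (H.ks k) _ (H.sym _ hρ' _ (by rw [hop]; simp [opSyms]))]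
    have hrel := (h5' t ht).2.2.2
    rw [hop] at hrel
    have hrel' : σ (t + 1) = _ := hrel
    rw [hrel', Function.update_self]
    rfl
  · intro ρ' hρ' t ht p hp k hk o ho hr
    have := (hR t ρ' hρ').1 hr
    subst this
    rw [hC _ _ _ hk _ ho, hC _ _ _ hk _ ho]
    have hrel := (h5' t ht).2.2.2
    rw [rel_iff] at hrel
    rw [hrel.2]
    cases hop : (ρ t).op with
    | nop => exact id
    | peek k' o => exact id
    | push k' a =>
      simp only [eff, inP, outP]
      by_cases hk' : k' = k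
      · subst hk'
        rw [Function.update_self, if_pos rfl]
        simp only [posv, List.getElem?_cons_succ, imp_self]
      · rw [Function.update_of_ne (Ne.symm hk'), if_neg hk']
        exact id
    | pop k' a =>
      simp only [eff, inP, outP]
      by_cases hk' : k' = k
      · subst hk'
        rw [Function.update_self, if_pos rfl]
        have e : (σ t k').tail[p]? = (σ t k')[p + 1]? := by
          cases σ t k' <;> simp
        simp only [posv, e, imp_self]
      · rw [Function.update_of_ne (Ne.symm hk'), if_neg hk']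
        exact id
  · intro p hp h0 k hk
    rw [hC _ _ _ hk _ H.none, h2]
    rfl
  · intro t ht k hk o ho o' ho' hc hc'
    rw [hC _ _ _ hk _ ho] at hc
    rw [hC _ _ _ hk _ ho'] at hc'
    exact hc.symm.trans hc'

lemma vn_inj {t p s t' p' s' : ℕ} (h : vn t p s = vn t' p' s') : t = t' ∧ p = p' ∧ s = s' := by
  have h1 := Nat.pair_eq_pair.1 h
  have h2 := Nat.pair_eq_pair.1 h1.2
  exact ⟨h1.1, h2.1, h2.2⟩

end machine

lemma ty_lt (q : ℕ) (x : List Bool) (t : ℕ) : ty q x t < 8 := by
  unfold ty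
  split_ifs <;> omega

/-- **Clause templates for a language in `NP`.** -/
theorem exists_templates (L : List Bool → Bool) (hL : L ∈ N68a2faeb.NP) :
    ∃ (T : Polynomial ℕ) (Θ : List CT), ∀ x, L x = true ↔ ∃ a, Sat (T.eval x.length) Θ x a := by
  classical
  obtain ⟨D, hD, hd⟩ := np_rdata L hL
  let T : Polynomial ℕ := 3 * D.qp + 6 * Polynomial.X + 2 + D.np
  have hTe : ∀ n, T.eval n = 3 * D.qp.eval n + 6 * n + 2 + D.np.eval n := fun n => by simp [T]
  let lv : ℕ → List (Rule D.Q D.K D.A) := fun i =>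
    match i with
    | 0 => D.A1
    | 1 => D.A2
    | 2 => D.A3
    | 3 => D.B
    | 4 => D.C false
    | 5 => D.C true
    | 6 => D.D
    | _ => D.main
  let AR : List (Rule D.Q D.K D.A) := (List.range 8).flatMap lv
  let os : List (Option D.A) := none :: AR.flatMap (fun ρ => opSyms ρ.op)
  let tyf : List Bool → ℕ → ℕ := fun x t => ty (D.qp.eval x.length) x t
  have hty : Cp (fun x v => tyf x (v 0)) := cp_ty D.qp
  have hT : Cp (fun x _ => T.eval x.length) := Cp.poly T Cp.len
  let SL : List (Sl D.Q D.K D.A) := AR.map .r ++ D.ks.flatMap (fun k => os.map (.c k))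
  let sn : Sl D.Q D.K D.A → ℕ := fun s => SL.idxOf s
  have H : ∀ x, Hyp (fun x => T.eval x.length) tyf lv AR D.ks os x (D.levels x) := by
    intro x
    have hlen : (D.levels x).length = T.eval x.length := by
      rw [RData.levels, length_shape, hTe]
    refine ⟨hlen, ?_, fun t => ty_lt _ _ _, ?_, hD.hks, by simp [os], ?_, ?_⟩
    · intro t ht
      have h1 := getElem?_shape lv (D.qp.eval x.length) x (D.np.eval x.length) t (by
        rw [hlen, hTe] at ht; exact ht)
      have h2 : shape (lv 0) (lv 1) (lv 2) (lv 3) (fun e => if e then lv 5 else lv 4) (lv 6)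
          (lv 7) (D.qp.eval x.length) x (D.np.eval x.length) = D.levels x := by
        have : (fun e : Bool => if e then lv 5 else lv 4) = D.C := by
          funext e
          cases e <;> rfl
        rw [this]
        rfl
      rw [h2] at h1
      rw [List.getElem?_eq_getElem ht] at h1
      exact Option.some.inj h1
    · intro i ρ hρ
      simp only [AR, List.mem_flatMap, List.mem_range]
      by_cases hi : i < 8
      · exact ⟨i, hi, hρ⟩
      · refine ⟨7, by omega, ?_⟩
        have : lv i = D.main := by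
          match i, hi with
          | i + 7, _ => rfl
          | 0, hi => omega
          | 1, hi => omega
          | 2, hi => omega
          | 3, hi => omega
          | 4, hi => omega
          | 5, hi => omega
          | 6, hi => omega
        rw [this] at hρ
        exact hρ
    · intro ρ hρ o ho
      simp only [os, List.mem_cons, List.mem_flatMap]
      exact Or.inr ⟨ρ, hρ, ho⟩
    · rw [hTe]
      omega
  refine ⟨T, temps (fun x => T.eval x.length) hT tyf hty sn lv AR D.ks os D.q0 D.qa, fun x => ?_⟩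
  have hsat := fun a => sat_iff_good (fun x => T.eval x.length) hT tyf hty sn lv AR D.ks os
    D.q0 D.qa x a
  rw [hd x]
  constructor
  · rintro ⟨Sa, hrun⟩
    obtain ⟨ρ, σ, hG⟩ := good_of_run (H x) hrun
    let M : ℕ → ℕ → Sl D.Q D.K D.A → Prop := fun t p s => match s with
      | .r ρ' => ρ t = ρ'
      | .c k o => (σ t k)[p]? = o
    let a : ℕ → Bool := fun n => decide (∃ t p s, s ∈ SL ∧ n = vn t p (sn s) ∧ M t p s)
    have ha : ∀ t p s, s ∈ SL → (a (vn t p (sn s)) = true ↔ M t p s) := by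
      intro t p s hs
      simp only [a, decide_eq_true_eq]
      constructor
      · rintro ⟨t', p', s', hs', he, hM⟩
        obtain ⟨rfl, rfl, e⟩ := vn_inj he
        have : s = s' := (List.idxOf_inj hs).1 e
        rw [this]
        exact hM
      · intro hM
        exact ⟨t, p, s, hs, rfl, hM⟩
    refine ⟨a, (hsat a).2 (hG _ _ ?_ ?_)⟩
    · intro t ρ' hρ'
      exact ha t 0 (.r ρ') (by simp [SL, hρ'])
    · intro t p k hk o ho
      exact ha t p (.c k o) (by
        simp only [SL, List.mem_append, List.mem_flatMap, List.mem_map]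
        exact Or.inr ⟨k, hk, o, ho, rfl⟩)
  · rintro ⟨a, ha⟩
    exact run_of_good (H x) ((hsat a).1 ha)

end Pool.Agent.H54.PT
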